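import Mathlib

/-!
Classical definitions: projective spaces with the Zariski topology, spaces of morphisms from the
projective line, projective varieties, morphisms between them, function fields, and the weighted
projective space with weights 1, 1, 1, 2.
-/

namespace Pool.Agent.Work.MP_ab22a4_ag

open MvPolynomial

variable {k : Type*} [Field k]

/-- projective space over `k` with homogeneous coordinates indexed by `ι` -/
abbrev PS (k : Type*) [Field k] (ι : Type*) := Projectivization k (ι → k)

/-- the Zariski topology on projective space: a set is closed when the cone over it is cut out by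
polynomials in the homogeneous coordinates -/
instance zariski (ι : Type*) : TopologicalSpace (PS k ι) :=
  TopologicalSpace.ofClosed
    {Z | ∃ S : Set (MvPolynomial ι k), ∀ (v : ι → k) (hv : v ≠ 0),
      Projectivization.mk k v hv ∈ Z ↔ ∀ F ∈ S, eval v F = 0}
    ⟨{1}, fun v hv => by simp⟩
    (by
      intro A hA
      refine ⟨{F | ∃ Z ∈ A, ∀ (v : ι → k) (hv : v ≠ 0),
        Projectivization.mk k v hv ∈ Z → eval v F = 0}, fun v hv => ?_⟩
      rw [Set.mem_sInter]
      constructor
      · rintro h F ⟨Z, hZ, hF⟩
        exact hF v hv (h Z hZ)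
      · intro h Z hZ
        obtain ⟨S, hS⟩ := hA hZ
        rw [hS v hv]
        intro F hF
        exact h F ⟨Z, hZ, fun w hw hwZ => (hS w hw).1 hwZ F hF⟩)
    (by
      rintro Z ⟨S, hS⟩ Z' ⟨S', hS'⟩
      refine ⟨{H | ∃ F ∈ S, ∃ G ∈ S', H = F * G}, fun v hv => ?_⟩
      rw [Set.mem_union, hS v hv, hS' v hv]
      constructor
      · rintro (h | h) _ ⟨F, hF, G, hG, rfl⟩
        · rw [map_mul, h F hF, zero_mul]
        · rw [map_mul, h G hG, mul_zero]
      · intro h
        by_contra hcon
        push Not at hcon
        obtain ⟨⟨F, hF, hF0⟩, ⟨G, hG, hG0⟩⟩ := hcon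
        have := h (F * G) ⟨F, hF, G, hG, rfl⟩
        rw [map_mul] at this
        exact mul_ne_zero hF0 hG0 this)

/-- the value at `p = (p 0, p 1)` of the tuple of binary forms of degree `d` with coefficients `c`:
the `i`-th form is `∑ j, c (i, j) * (p 0) ^ (d - j) * (p 1) ^ j` -/
def bform {σ : Type*} (d : ℕ) (c : σ × Fin (d + 1) → k) (p : Fin 2 → k) : σ → k :=
  fun i => ∑ j : Fin (d + 1), c (i, j) * (p 0 ^ (d - (j : ℕ)) * p 1 ^ (j : ℕ))

/-- the space of morphisms of degree `d` from the projective line to `Z`: tuples of binary forms of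
degree `d`, up to scalars, without common zeros and with values in `Z` -/
def Mor {σ : Type*} (d : ℕ) (Z : Set (PS k σ)) : Set (PS k (σ × Fin (d + 1))) :=
  {g | ∀ p : Fin 2 → k, p ≠ 0 → ∃ h : bform d g.rep p ≠ 0,
    Projectivization.mk k (bform d g.rep p) h ∈ Z}

/-- the value of a morphism at a point of the projective line -/
noncomputable def val {σ : Type*} {d : ℕ} {Z : Set (PS k σ)} (g : Mor d Z) (p : PS k (Fin 2)) : Z :=
  ⟨Projectivization.mk k (bform d g.1.rep p.rep) (g.2 p.rep p.rep_nonzero).1,
    (g.2 p.rep p.rep_nonzero).2⟩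

/-- homogeneous ideals: they contain the homogeneous components of their elements -/
def IsHomog {τ : Type*} (J : Ideal (MvPolynomial τ k)) : Prop :=
  ∀ F ∈ J, ∀ n, homogeneousComponent n F ∈ J

/-- the points of the projective variety with homogeneous ideal `J` -/
def pts {τ : Type*} (J : Ideal (MvPolynomial τ k)) : Set (PS k τ) :=
  {y | ∀ F ∈ J, eval y.rep F = 0}

variable {σ τ : Type*}

/-- the forms `F i` of degree `m` represent the map `f` wherever they do not all vanish -/
def IsRep {J : Ideal (MvPolynomial τ k)} {Z : Set (PS k σ)} (f : pts J → Z) (m : ℕ)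
    (F : σ → MvPolynomial τ k) : Prop :=
  (∀ i, (F i).IsHomogeneous m) ∧
    ∀ y : pts J, ∀ h : (fun i => eval y.1.rep (F i)) ≠ 0, (f y).1 = Projectivization.mk k _ h

/-- morphisms of projective varieties: near every point they are given by forms -/
def IsMorphism {J : Ideal (MvPolynomial τ k)} {Z : Set (PS k σ)} (f : pts J → Z) : Prop :=
  ∀ y : pts J, ∃ m F, IsRep f m F ∧ (fun i => eval y.1.rep (F i)) ≠ 0

/-- the fraction `a / b` in the fraction field of the homogeneous coordinate ring -/
noncomputable def ratio (J : Ideal (MvPolynomial τ k)) [J.IsPrime] (a b : MvPolynomial τ k) :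
    FractionRing (MvPolynomial τ k ⧸ J) :=
  algebraMap (MvPolynomial τ k ⧸ J) _ (Ideal.Quotient.mk J a) /
    algebraMap (MvPolynomial τ k ⧸ J) _ (Ideal.Quotient.mk J b)

/-- the function field of the projective variety with ideal `J`: fractions of forms of the same
degree -/
noncomputable def funField (J : Ideal (MvPolynomial τ k)) [J.IsPrime] :
    IntermediateField k (FractionRing (MvPolynomial τ k ⧸ J)) :=
  IntermediateField.adjoin k
    {z | ∃ m, ∃ a b : MvPolynomial τ k, a.IsHomogeneous m ∧ b.IsHomogeneous m ∧ z = ratio J a b}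

/-- the subfield of the function field of the source consisting of the pullbacks of the rational
functions on the image of `f` -/
noncomputable def pullField {J : Ideal (MvPolynomial τ k)} [J.IsPrime] {Z : Set (PS k σ)}
    (f : pts J → Z) : IntermediateField k (FractionRing (MvPolynomial τ k ⧸ J)) :=
  IntermediateField.adjoin k {z | ∃ m F, IsRep f m F ∧ ∃ i j, z = ratio J (F i) (F j)}

/-- `f` is generically finite onto its image -/
def GenFinite {J : Ideal (MvPolynomial τ k)} [J.IsPrime] {Z : Set (PS k σ)} (f : pts J → Z) :
    Prop :=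
  ∀ z ∈ funField J, IsAlgebraic (pullField f) z

/-- `f` is birational onto `Z`: it is dominant and induces an isomorphism of function fields -/
def Birational {J : Ideal (MvPolynomial τ k)} [J.IsPrime] {Z : Set (PS k σ)} (f : pts J → Z) :
    Prop :=
  DenseRange f ∧ funField J ≤ pullField f

/-- the compositions `f ∘ g` of the members `g` of a family `N` of morphisms from the projective
line to the source of `f` -/
def push {J : Ideal (MvPolynomial τ k)} {Z : Set (PS k σ)} (f : pts J → Z) {d' : ℕ}
    (N : Set (Mor d' (pts J))) (d : ℕ) : Set (Mor d Z) :=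
  {c | ∃ g ∈ N, ∀ p, val c p = f (val g p)}

/-- the point with coordinates `x i * x j` and `y` -/
def emb (x : Fin 3 → k) (y : k) : Option (Fin 3 × Fin 3) → k
  | none => y
  | some (i, j) => x i * x j

/-- the weighted projective space with weights 1, 1, 1, 2 and weighted homogeneous coordinates
`(x 0, x 1, x 2, y)`, embedded by `x i * x j` and `y`, that is by the sections of degree 2 -/
def W (k : Type*) [Field k] : Set (PS k (Option (Fin 3 × Fin 3))) :=
  {P | ∃ (x : Fin 3 → k) (y : k), P.rep = emb x y}

/-- the set `M` of morphisms to `Z` is dominated by a family of morphisms to a projective variety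
`Y` via some morphism `f : Y → Z` which is generically finite onto its image and not birational -/
def Dominated {Z : Set (PS k σ)} {d : ℕ} (M : Set (Mor d Z)) : Prop :=
  ∃ (n : ℕ) (J : Ideal (MvPolynomial (Fin (n + 1)) k)) (_ : J.IsPrime) (_ : IsHomog J)
    (f : pts J → Z),
    IsMorphism f ∧ GenFinite f ∧ ¬ Birational f ∧
      ∃ (d' : ℕ) (N : Set (Mor d' (pts J))), M ⊆ closure (push f N d)

end Pool.Agent.Work.MP_ab22a4_ag
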