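import Mathlib

namespace Pool.Agent.Work.MP_ab22a4_ag

open Polynomial

theorem alg_data {A K : Type*} [CommRing A] [IsDomain A] [IsIntegrallyClosed A] [CharZero A]
    [Field K] [Algebra A K] (hinj : Function.Injective (algebraMap A K)) (θ : K)
    (hθ : IsAlgebraic A θ) :
    ∃ (α : A) (P : A[X]) (D : A), α ≠ 0 ∧ D ≠ 0 ∧ P.Monic ∧ aeval (algebraMap A K α * θ) P = 0 ∧
      (∃ a b : A[X], a * P + b * derivative P = C D) ∧
      ∀ r : A, P.eval r = 0 → algebraMap A K α * θ = algebraMap A K r := by
  classical
  have hfs : FaithfulSMul A K := (faithfulSMul_iff_algebraMap_injective A K).2 hinj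
  obtain ⟨α, hα, hint⟩ := hθ.exists_integral_multiple
  rw [Algebra.smul_def] at hint
  set θ' := algebraMap A K α * θ with hθ'
  set P := minpoly A θ' with hP
  have hPm : P.Monic := minpoly.monic hint
  have hirr : Irreducible P := minpoly.irreducible hint
  have hirr' : Irreducible (P.map (algebraMap A (FractionRing A))) :=
    (hPm.irreducible_iff_irreducible_map_fraction_map).1 hirr
  have hchar : CharZero (FractionRing A) :=
    charZero_of_injective_algebraMap (IsFractionRing.injective A (FractionRing A))
  have hsep : (P.map (algebraMap A (FractionRing A))).Separable := hirr'.separable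
  obtain ⟨a0, b0, hab⟩ := hsep
  obtain ⟨da, hda, ha⟩ := IsLocalization.integerNormalization_spec (nonZeroDivisors A) a0
  obtain ⟨db, hdb, hb⟩ := IsLocalization.integerNormalization_spec (nonZeroDivisors A) b0
  set a1 := IsLocalization.integerNormalization (nonZeroDivisors A) a0
  set b1 := IsLocalization.integerNormalization (nonZeroDivisors A) b0
  refine ⟨α, P, da * db, hα, mul_ne_zero (nonZeroDivisors.ne_zero hda) (nonZeroDivisors.ne_zero hdb),
    hPm, minpoly.aeval A θ', ⟨C db * a1, C da * b1, ?_⟩, ?_⟩
  · apply Polynomial.map_injective (algebraMap A (FractionRing A))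
      (IsFractionRing.injective A (FractionRing A))
    rw [Polynomial.map_add, Polynomial.map_mul, Polynomial.map_mul, Polynomial.map_mul,
      Polynomial.map_mul, ha, hb, ← Polynomial.derivative_map, Polynomial.map_C,
      Polynomial.map_C, Polynomial.map_C, map_mul]
    have e1 : da • a0 = C (algebraMap A (FractionRing A) da) * a0 := by
      rw [← Polynomial.smul_eq_C_mul, algebraMap_smul]
    have e2 : db • b0 = C (algebraMap A (FractionRing A) db) * b0 := by
      rw [← Polynomial.smul_eq_C_mul, algebraMap_smul]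
    rw [e1, e2, C_mul]
    linear_combination (C (algebraMap A (FractionRing A) da) *
      C (algebraMap A (FractionRing A) db)) * hab
  · intro r hr
    by_contra hne
    obtain ⟨P1, hP1⟩ := Polynomial.dvd_iff_isRoot.2 hr
    have h1 : aeval θ' P1 = 0 := by
      have h2 : aeval θ' P = 0 := minpoly.aeval A θ'
      rw [hP1, map_mul, map_sub, aeval_X, aeval_C] at h2
      rcases mul_eq_zero.1 h2 with h3 | h3
      · exact absurd (sub_eq_zero.1 h3) hne
      · exact h3
    have hP1m : P1.Monic := by
      have := hPm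
      rw [hP1] at this
      exact (Polynomial.monic_X_sub_C r).of_mul_monic_left this
    have h4 := minpoly.min A θ' hP1m h1
    rw [← hP] at h4
    have h5 : P.natDegree = 1 + P1.natDegree := by
      conv_lhs => rw [hP1]
      rw [Polynomial.Monic.natDegree_mul (Polynomial.monic_X_sub_C r) hP1m,
        Polynomial.natDegree_X_sub_C]
    have h6 : P.natDegree ≤ P1.natDegree := Polynomial.natDegree_le_natDegree h4
    omega

/-- pairs of related elements of the fraction fields of `S` and `D` -/
def relAlg {k S D : Type*} [Field k] [CommRing S] [IsDomain S] [CommRing D] [IsDomain D]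
    [Algebra k S] [Algebra k D] (φ : S →ₐ[k] D) :
    Subalgebra k (FractionRing S × FractionRing D) where
  carrier := {z | ∃ a b : S, φ b ≠ 0 ∧ z.1 * algebraMap S _ b = algebraMap S _ a ∧
    z.2 * algebraMap D _ (φ b) = algebraMap D _ (φ a)}
  mul_mem' := by
    rintro z w ⟨a, b, hb, h1, h2⟩ ⟨a', b', hb', h1', h2'⟩
    refine ⟨a * a', b * b', by rw [map_mul]; exact mul_ne_zero hb hb', ?_, ?_⟩
    · rw [Prod.fst_mul, map_mul, map_mul, ← h1, ← h1']; ring
    · rw [Prod.snd_mul, map_mul, map_mul, map_mul, map_mul, ← h2, ← h2']; ring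
  add_mem' := by
    rintro z w ⟨a, b, hb, h1, h2⟩ ⟨a', b', hb', h1', h2'⟩
    refine ⟨a * b' + a' * b, b * b', by rw [map_mul]; exact mul_ne_zero hb hb', ?_, ?_⟩
    · rw [Prod.fst_add, map_mul, map_add, map_mul, map_mul, ← h1, ← h1']; ring
    · rw [Prod.snd_add, map_mul, map_mul, map_add, map_add, map_mul, map_mul, map_mul, map_mul,
        ← h2, ← h2']; ring
  algebraMap_mem' := by
    intro r
    refine ⟨algebraMap k S r, 1, by rw [map_one]; exact one_ne_zero, ?_, ?_⟩
    · rw [map_one, mul_one, ← IsScalarTower.algebraMap_apply]; rfl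
    · rw [map_one, map_one, mul_one, AlgHom.commutes, ← IsScalarTower.algebraMap_apply]; rfl

lemma relAlg_snd_eq_zero {k S D : Type*} [Field k] [CommRing S] [IsDomain S] [CommRing D]
    [IsDomain D] [Algebra k S] [Algebra k D] (φ : S →ₐ[k] D)
    (z : FractionRing S × FractionRing D) (hz : z ∈ relAlg φ) (h : z.1 = 0) : z.2 = 0 := by
  obtain ⟨a, b, hb, h1, h2⟩ := hz
  rw [h, zero_mul] at h1
  have ha : a = 0 := IsFractionRing.injective S (FractionRing S) (by rw [← h1, map_zero])
  rw [ha, map_zero, map_zero] at h2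
  rcases mul_eq_zero.1 h2 with h3 | h3
  · exact h3
  · exact absurd (IsFractionRing.injective D (FractionRing D) (by rw [h3, map_zero])) hb

/-- transfer of polynomial relations -/
lemma relAlg_transfer {k S D : Type*} [Field k] [CommRing S] [IsDomain S] [CommRing D]
    [IsDomain D] [Algebra k S] [Algebra k D] (φ : S →ₐ[k] D) {ι : Type*}
    (u : ι → FractionRing S) (u' : ι → FractionRing D) (hu : ∀ i, (u i, u' i) ∈ relAlg φ)
    (z : FractionRing S) (z' : FractionRing D) (hz : (z, z') ∈ relAlg φ)
    (P : (MvPolynomial ι k)[X]) (hP : (P.map (MvPolynomial.aeval u).toRingHom).eval z = 0) :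
    (P.map (MvPolynomial.aeval u').toRingHom).eval z' = 0 := by
  let U : ι → relAlg φ := fun i => ⟨(u i, u' i), hu i⟩
  let Z : relAlg φ := ⟨(z, z'), hz⟩
  let π1 : relAlg φ →ₐ[k] FractionRing S := (AlgHom.fst k _ _).comp (relAlg φ).val
  let π2 : relAlg φ →ₐ[k] FractionRing D := (AlgHom.snd k _ _).comp (relAlg φ).val
  have e1 : π1.toRingHom.comp (MvPolynomial.aeval (R := k) U).toRingHom = (MvPolynomial.aeval u).toRingHom := by
    apply MvPolynomial.ringHom_ext
    · intro a
      simp
    · intro i
      simp [π1, U]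
  have e2 : π2.toRingHom.comp (MvPolynomial.aeval (R := k) U).toRingHom = (MvPolynomial.aeval u').toRingHom := by
    apply MvPolynomial.ringHom_ext
    · intro a
      simp
    · intro i
      simp [π2, U]
  set w : relAlg φ := (P.map (MvPolynomial.aeval (R := k) U).toRingHom).eval Z with hw
  have h1 : π1.toRingHom w = 0 := by
    rw [hw, ← Polynomial.eval₂_at_apply, ← Polynomial.eval_map, Polynomial.map_map, e1]
    exact hP
  have h2 : π2.toRingHom w = (P.map (MvPolynomial.aeval u').toRingHom).eval z' := by
    rw [hw, ← Polynomial.eval₂_at_apply, ← Polynomial.eval_map, Polynomial.map_map, e2]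
    rfl
  rw [← h2]
  exact relAlg_snd_eq_zero φ w.1 w.2 h1

end Pool.Agent.Work.MP_ab22a4_ag
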