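import Mathlib

namespace Pool.Agent.Work.MP_ab22a4_ag

open Polynomial

/-- degree bound for roots of monic polynomials with coefficients of bounded degree -/
lemma natDegree_root_le {R : Type*} [CommRing R] [IsDomain R] (Q : R[X][X]) (hQ : Q.Monic) (B : ℕ)
    (hB : ∀ i, (Q.coeff i).natDegree ≤ B) (r : R[X]) (hr : Q.eval r = 0) : r.natDegree ≤ B := by
  by_contra hlt
  push Not at hlt
  have hδ : Q.natDegree ≠ 0 := by
    intro h0
    have : Q = 1 := by
      rw [Polynomial.eq_C_of_natDegree_eq_zero h0]
      have : Q.coeff 0 = 1 := by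
        have := hQ.coeff_natDegree
        rwa [h0] at this
      rw [this]; simp
    rw [this] at hr
    simp at hr
  have h1 : Q.eval r = ∑ i ∈ Finset.range Q.natDegree, Q.coeff i * r ^ i + r ^ Q.natDegree := by
    rw [Polynomial.eval_eq_sum_range, Finset.sum_range_succ, hQ.coeff_natDegree, one_mul]
  rw [h1] at hr
  have h2 : r ^ Q.natDegree = - ∑ i ∈ Finset.range Q.natDegree, Q.coeff i * r ^ i := by
    linear_combination hr
  have h3 : (r ^ Q.natDegree).natDegree = Q.natDegree * r.natDegree := by
    rw [Polynomial.natDegree_pow]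
  have h4 : (∑ i ∈ Finset.range Q.natDegree, Q.coeff i * r ^ i).natDegree ≤
      B + (Q.natDegree - 1) * r.natDegree := by
    apply Polynomial.natDegree_sum_le_of_forall_le
    intro i hi
    rw [Finset.mem_range] at hi
    calc (Q.coeff i * r ^ i).natDegree ≤ (Q.coeff i).natDegree + (r ^ i).natDegree :=
          Polynomial.natDegree_mul_le
      _ ≤ B + i * r.natDegree := by
          rw [Polynomial.natDegree_pow]
          exact Nat.add_le_add (hB i) le_rfl
      _ ≤ B + (Q.natDegree - 1) * r.natDegree := by
          apply Nat.add_le_add le_rfl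
          apply Nat.mul_le_mul_right
          omega
  have h5 : (r ^ Q.natDegree).natDegree ≤ B + (Q.natDegree - 1) * r.natDegree := by
    rw [h2, Polynomial.natDegree_neg]; exact h4
  rw [h3] at h5
  obtain ⟨n, hn⟩ : ∃ n, Q.natDegree = n + 1 := ⟨Q.natDegree - 1, by omega⟩
  rw [hn] at h5
  simp only [Nat.add_sub_cancel] at h5
  nlinarith

/-- existence of approximate roots modulo powers of the variable -/
lemma hensel_exists {R : Type*} [CommRing R] (Q : R[X][X]) (θ : R)
    (h0 : (Q.eval (C θ)).eval 0 = 0) (h1 : IsUnit ((Q.derivative.eval (C θ)).eval 0)) (m : ℕ) :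
    ∃ T : R[X], T.natDegree ≤ m ∧ T.eval 0 = θ ∧ X ^ (m + 1) ∣ Q.eval T := by
  induction m with
  | zero =>
    refine ⟨C θ, by simp, by simp, ?_⟩
    rw [zero_add, pow_one, Polynomial.X_dvd_iff, Polynomial.coeff_zero_eq_eval_zero, h0]
  | succ m ih =>
    obtain ⟨T, hT1, hT2, b, hb⟩ := ih
    obtain ⟨u, hu⟩ := h1
    have hder : (Q.derivative.eval T).eval 0 = u := by
      rw [hu]
      obtain ⟨w, hw⟩ : (T - C θ) ∣ Q.derivative.eval T - Q.derivative.eval (C θ) :=
        Polynomial.sub_dvd_eval_sub _ _ _
      have : (Q.derivative.eval T - Q.derivative.eval (C θ)).eval 0 = 0 := by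
        rw [hw, Polynomial.eval_mul, Polynomial.eval_sub, hT2, Polynomial.eval_C, sub_self, zero_mul]
      rw [Polynomial.eval_sub, sub_eq_zero] at this
      exact this
    set a : R := - (b.eval 0) * (↑u⁻¹ : R) with ha
    refine ⟨T + C a * X ^ (m + 1), ?_, ?_, ?_⟩
    · refine (Polynomial.natDegree_add_le _ _).trans (max_le (hT1.trans (Nat.le_succ m)) ?_)
      exact Polynomial.natDegree_C_mul_X_pow_le _ _
    · simp [hT2]
    · obtain ⟨v, hv⟩ := Q.binomExpansion T (C a * X ^ (m + 1))
      rw [hv, hb]
      have h6 : X ∣ b + Q.derivative.eval T * C a := by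
        rw [Polynomial.X_dvd_iff, Polynomial.coeff_zero_eq_eval_zero, Polynomial.eval_add,
          Polynomial.eval_mul, hder, Polynomial.eval_C, ha]
        have : (u : R) * (↑u⁻¹ : R) = 1 := u.mul_inv
        linear_combination (-(b.eval 0)) * this
      obtain ⟨w, hw⟩ := h6
      refine ⟨w + v * C a ^ 2 * X ^ m, ?_⟩
      have : X ^ (m + 1) * b + Q.derivative.eval T * (C a * X ^ (m + 1)) +
          v * (C a * X ^ (m + 1)) ^ 2 =
          X ^ (m + 1) * (b + Q.derivative.eval T * C a) + v * C a ^ 2 * X ^ (2 * (m + 1)) := by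
        ring
      rw [this, hw]
      ring

/-- uniqueness of approximate roots -/
lemma hensel_unique {K : Type*} [Field K] (Q : K[X][X]) (r₁ r₂ : K[X]) (m : ℕ)
    (h1 : X ^ m ∣ Q.eval r₁) (h2 : X ^ m ∣ Q.eval r₂) (h0 : r₁.eval 0 = r₂.eval 0)
    (hsep : (Q.derivative.eval r₂).eval 0 ≠ 0) : X ^ m ∣ r₁ - r₂ := by
  obtain ⟨v, hv⟩ := Q.binomExpansion r₂ (r₁ - r₂)
  rw [add_sub_cancel] at hv
  have h3 : X ^ m ∣ (r₁ - r₂) * (Q.derivative.eval r₂ + v * (r₁ - r₂)) := by
    have : (r₁ - r₂) * (Q.derivative.eval r₂ + v * (r₁ - r₂)) = Q.eval r₁ - Q.eval r₂ := by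
      rw [hv]; ring
    rw [this]
    exact dvd_sub h1 h2
  have h4 : ¬ X ∣ (Q.derivative.eval r₂ + v * (r₁ - r₂)) := by
    rw [Polynomial.X_dvd_iff, Polynomial.coeff_zero_eq_eval_zero, Polynomial.eval_add,
      Polynomial.eval_mul, Polynomial.eval_sub, h0, sub_self, mul_zero, add_zero]
    exact hsep
  have hcop : IsCoprime (X ^ m : K[X]) (Q.derivative.eval r₂ + v * (r₁ - r₂)) := by
    apply IsCoprime.pow_left
    exact (Polynomial.irreducible_X.coprime_iff_not_dvd).2 h4
  exact hcop.dvd_of_dvd_mul_right h3

lemma hom_eval {R S : Type*} [CommRing R] [CommRing S] (f : R →+* S) (Q : R[X]) (T : R) :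
    f (Q.eval T) = (Q.map f).eval (f T) := by
  rw [Polynomial.eval_map, Polynomial.eval₂_at_apply]

/-- the arc with constant term x, linear term c and higher order part ρ -/
noncomputable def arc {K : Type*} [Field K] {n : ℕ} (x : Fin n → K) (ρ : Fin n → K[X])
    (c : Fin n → K) : Fin n → K[X] :=
  fun i => C (x i) + C (c i) * X + ρ i

theorem root_of_roots {K : Type*} [Field K] [IsAlgClosed K] {n : ℕ}
    (P : (MvPolynomial (Fin n) K)[X]) (hP : P.Monic) (x0 : Fin n → K) (ρ : Fin n → K[X])
    (hρ : ∀ i, (ρ i).eval 0 = 0) (hsep : (P.map (MvPolynomial.eval x0)).Separable)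
    (hroot : ∀ c : Fin n → K, ∃ r : K[X],
      (P.map (MvPolynomial.aeval (arc x0 ρ c)).toRingHom).eval r = 0) :
    ∃ r : MvPolynomial (Fin n) K, P.eval r = 0 := by
  classical
  have : Infinite K := inferInstance
  -- the universal arc
  let φ : MvPolynomial (Fin n) K →ₐ[K] (MvPolynomial (Fin n) K)[X] :=
    MvPolynomial.aeval (fun i => C (MvPolynomial.C (x0 i)) + C (MvPolynomial.X i) * X +
      (ρ i).map MvPolynomial.C)
  let Q : (MvPolynomial (Fin n) K)[X][X] := P.map φ.toRingHom
  have hQ : Q.Monic := hP.map _
  let spec : (Fin n → K) → (MvPolynomial (Fin n) K)[X] →+* K[X] := fun c =>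
    Polynomial.mapRingHom (MvPolynomial.eval c)
  have hspec : ∀ c, (spec c).comp φ.toRingHom = (MvPolynomial.aeval (arc x0 ρ c)).toRingHom := by
    intro c
    apply MvPolynomial.ringHom_ext
    · intro a
      simp [spec, φ]
    · intro i
      simp only [spec, φ, RingHom.comp_apply, AlgHom.toRingHom_eq_coe, RingHom.coe_coe,
        MvPolynomial.aeval_X, arc, Polynomial.coe_mapRingHom, Polynomial.map_add,
        Polynomial.map_mul, Polynomial.map_C, Polynomial.map_X, MvPolynomial.eval_C,
        MvPolynomial.eval_X, Polynomial.map_map]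
      congr 1
      have : (MvPolynomial.eval c).comp MvPolynomial.C = RingHom.id K := by
        ext a; simp
      rw [this, Polynomial.map_id]
  have hQc : ∀ c, Q.map (spec c) = P.map (MvPolynomial.aeval (arc x0 ρ c)).toRingHom := by
    intro c
    rw [Polynomial.map_map, hspec]
  -- constant term
  let ev0 : (MvPolynomial (Fin n) K)[X] →+* MvPolynomial (Fin n) K := Polynomial.evalRingHom 0
  have hev0 : ev0.comp φ.toRingHom = (MvPolynomial.C).comp (MvPolynomial.eval x0) := by
    apply MvPolynomial.ringHom_ext
    · intro a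
      simp only [ev0, φ, RingHom.comp_apply, AlgHom.toRingHom_eq_coe, RingHom.coe_coe,
        MvPolynomial.eval_C]
      rw [← MvPolynomial.algebraMap_eq, AlgHom.commutes]
      simp [Polynomial.algebraMap_apply]
    · intro i
      simp only [ev0, φ, RingHom.comp_apply, AlgHom.toRingHom_eq_coe, RingHom.coe_coe,
        MvPolynomial.aeval_X, Polynomial.coe_evalRingHom, Polynomial.eval_add,
        Polynomial.eval_mul, Polynomial.eval_C, Polynomial.eval_X, mul_zero, add_zero,
        MvPolynomial.eval_X]
      have : (Polynomial.map MvPolynomial.C (ρ i)).eval (0 : MvPolynomial (Fin n) K) = 0 := by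
        have h := Polynomial.eval_map_apply (f := (MvPolynomial.C : K →+* MvPolynomial (Fin n) K))
          (p := ρ i) (x := 0)
        rw [map_zero] at h
        rw [h, hρ i, map_zero]
      rw [this, add_zero]
  set p0 : K[X] := P.map (MvPolynomial.eval x0) with hp0
  have hp0m : p0.Monic := hP.map _
  have hQ0 : ∀ T : (MvPolynomial (Fin n) K)[X], ∀ θ : K, T.eval 0 = MvPolynomial.C θ →
      (Q.eval T).eval 0 = MvPolynomial.C (p0.eval θ) := by
    intro T θ hT
    have h1 : (Q.eval T).eval 0 = (Q.map ev0).eval (ev0 T) := hom_eval ev0 Q T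
    rw [h1, Polynomial.map_map, hev0, ← Polynomial.map_map, ← hp0]
    have : ev0 T = MvPolynomial.C θ := hT
    rw [this, Polynomial.eval_map, Polynomial.eval₂_at_apply]
  have hQ0' : ∀ T : (MvPolynomial (Fin n) K)[X], ∀ θ : K, T.eval 0 = MvPolynomial.C θ →
      (Q.derivative.eval T).eval 0 = MvPolynomial.C (p0.derivative.eval θ) := by
    intro T θ hT
    have h1 : (Q.derivative.eval T).eval 0 = (Q.derivative.map ev0).eval (ev0 T) :=
      hom_eval ev0 Q.derivative T
    have h2 : Q.derivative.map ev0 = (p0.derivative).map MvPolynomial.C := by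
      rw [← Polynomial.derivative_map, Polynomial.map_map, hev0, ← Polynomial.map_map, ← hp0,
        Polynomial.derivative_map]
    rw [h1, h2]
    have : ev0 T = MvPolynomial.C θ := hT
    rw [this, Polynomial.eval_map, Polynomial.eval₂_at_apply]
  -- degree bound
  obtain ⟨B, hB⟩ : ∃ B : ℕ, ∀ i, (Q.coeff i).natDegree ≤ B := by
    refine ⟨Q.support.sup (fun i => (Q.coeff i).natDegree), fun i => ?_⟩
    by_cases hi : i ∈ Q.support
    · exact Finset.le_sup (f := fun i => (Q.coeff i).natDegree) hi
    · rw [Polynomial.notMem_support_iff.1 hi]; simp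
  have hder_ne : ∀ θ, p0.eval θ = 0 → p0.derivative.eval θ ≠ 0 := by
    intro θ hθ
    exact Polynomial.Separable.eval₂_derivative_ne_zero (RingHom.id K) hsep
      (by rw [Polynomial.eval₂_id]; exact hθ)
  have hT : ∀ θ : K, p0.eval θ = 0 → ∃ T : (MvPolynomial (Fin n) K)[X], T.natDegree ≤ B ∧
      T.eval 0 = MvPolynomial.C θ ∧ X ^ (B + 1) ∣ Q.eval T := by
    intro θ hθ
    apply hensel_exists Q (MvPolynomial.C θ)
    · rw [hQ0 _ θ (by simp), hθ, map_zero]
    · rw [hQ0' _ θ (by simp)]
      exact (isUnit_iff_ne_zero.2 (hder_ne θ hθ)).map _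
  choose! T hT1 hT2 hT3 using hT
  -- the product
  have hprod : ∏ θ ∈ p0.roots.toFinset, Q.eval (T θ) = 0 := by
    have hall : ∀ c, spec c (∏ θ ∈ p0.roots.toFinset, Q.eval (T θ)) = 0 := by
      intro c
      obtain ⟨r, hr⟩ := hroot c
      rw [← hQc c] at hr
      have hrdeg : r.natDegree ≤ B := by
        apply natDegree_root_le (Q.map (spec c)) (hQ.map _) B _ r hr
        intro i
        rw [Polynomial.coeff_map]
        exact (Polynomial.natDegree_map_le).trans (hB i)
      set θ := r.eval 0 with hθ
      have hθ0 : p0.eval θ = 0 := by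
        have h1 : ((Q.map (spec c)).eval r).eval 0 = p0.eval θ := by
          have h2 : (Q.map (spec c)).map (Polynomial.evalRingHom (0 : K)) = p0 := by
            rw [hQc c, Polynomial.map_map, hp0]
            congr 1
            apply MvPolynomial.ringHom_ext
            · intro a
              simp only [RingHom.comp_apply, AlgHom.toRingHom_eq_coe, RingHom.coe_coe,
                MvPolynomial.eval_C]
              rw [← MvPolynomial.algebraMap_eq, AlgHom.commutes]
              simp
            · intro i
              simp [arc, hρ]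
          rw [← h2, hθ]
          have h3 := Polynomial.eval_map_apply (f := Polynomial.evalRingHom (0 : K))
            (p := Q.map (spec c)) (x := r)
          simpa using h3.symm
        rw [← h1, hr, Polynomial.eval_zero]
      rw [map_prod]
      apply Finset.prod_eq_zero (i := θ)
      · rw [Multiset.mem_toFinset, Polynomial.mem_roots hp0m.ne_zero]
        exact hθ0
      · -- the approximate root specialises to r
        have e1 : spec c (Q.eval (T θ)) = (Q.map (spec c)).eval (spec c (T θ)) :=
          hom_eval (spec c) Q (T θ)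
        have e0 : (spec c (T θ)).eval 0 = θ := by
          have := Polynomial.eval_map_apply (f := MvPolynomial.eval c) (p := T θ) (x := 0)
          rw [map_zero] at this
          have h8 : (spec c (T θ)).eval 0 = (Polynomial.map (MvPolynomial.eval c) (T θ)).eval 0 :=
            rfl
          rw [h8, this, hT2 θ hθ0, MvPolynomial.eval_C]
        have e2 : X ^ (B + 1) ∣ r - spec c (T θ) := by
          apply hensel_unique (Q.map (spec c)) r (spec c (T θ)) (B + 1)
          · rw [hr]; exact dvd_zero _
          · rw [← e1]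
            have := map_dvd (spec c) (hT3 θ hθ0)
            simpa [spec] using this
          · rw [e0]
          · have h9 : ((Q.map (spec c)).derivative.eval (spec c (T θ))) =
                spec c (Q.derivative.eval (T θ)) := by
              rw [Polynomial.derivative_map, hom_eval]
            rw [h9]
            have h10 := Polynomial.eval_map_apply (f := MvPolynomial.eval c)
              (p := Q.derivative.eval (T θ)) (x := 0)
            rw [map_zero, hQ0' _ θ (hT2 θ hθ0), MvPolynomial.eval_C] at h10
            have h11 : (spec c (Q.derivative.eval (T θ))).eval 0 =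
              (Polynomial.map (MvPolynomial.eval c) (Q.derivative.eval (T θ))).eval 0 := rfl
            rw [h11, h10]
            exact hder_ne θ hθ0
        have e3 : r - spec c (T θ) = 0 := by
          by_contra hne
          have h12 := Polynomial.natDegree_le_of_dvd e2 hne
          rw [Polynomial.natDegree_X_pow] at h12
          have h13 : (r - spec c (T θ)).natDegree ≤ B := by
            refine (Polynomial.natDegree_sub_le _ _).trans (max_le hrdeg ?_)
            exact (Polynomial.natDegree_map_le).trans (hT1 θ hθ0)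
          omega
        rw [e1, ← sub_eq_zero.1 e3, hr]
    ext i : 1
    rw [Polynomial.coeff_zero]
    apply MvPolynomial.funext
    intro c
    have := congrArg (fun q => Polynomial.coeff q i) (hall c)
    simp only [spec, Polynomial.coe_mapRingHom, Polynomial.coeff_map, Polynomial.coeff_zero] at this
    rw [this, map_zero]
  obtain ⟨θ, hθmem, hθ⟩ := Finset.prod_eq_zero_iff.1 hprod
  -- specialise the variable to 1 and translate back
  let ψ : MvPolynomial (Fin n) K →ₐ[K] MvPolynomial (Fin n) K :=
    MvPolynomial.aeval (fun i => MvPolynomial.X i - MvPolynomial.C (x0 i) -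
      MvPolynomial.C ((ρ i).eval 1))
  let χ : (MvPolynomial (Fin n) K)[X] →+* MvPolynomial (Fin n) K :=
    ψ.toRingHom.comp (Polynomial.evalRingHom 1)
  have hχ : χ.comp φ.toRingHom = RingHom.id _ := by
    apply MvPolynomial.ringHom_ext
    · intro a
      simp only [χ, φ, RingHom.comp_apply, AlgHom.toRingHom_eq_coe, RingHom.coe_coe]
      rw [← MvPolynomial.algebraMap_eq, AlgHom.commutes]
      simp [Polynomial.algebraMap_apply]
    · intro i
      have h14 : (Polynomial.map MvPolynomial.C (ρ i)).eval (1 : MvPolynomial (Fin n) K) =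
          MvPolynomial.C ((ρ i).eval 1) := by
        have h := Polynomial.eval_map_apply (f := (MvPolynomial.C : K →+* MvPolynomial (Fin n) K))
          (p := ρ i) (x := 1)
        rw [map_one] at h
        exact h
      simp only [χ, φ, RingHom.comp_apply, AlgHom.toRingHom_eq_coe, RingHom.coe_coe,
        MvPolynomial.aeval_X, Polynomial.coe_evalRingHom, Polynomial.eval_add,
        Polynomial.eval_mul, Polynomial.eval_C, Polynomial.eval_X, mul_one, h14, map_add,
        RingHom.id_apply]
      simp only [ψ, MvPolynomial.aeval_X]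
      rw [← MvPolynomial.algebraMap_eq, AlgHom.commutes, AlgHom.commutes]
      ring
  refine ⟨χ (T θ), ?_⟩
  have h15 : χ (Q.eval (T θ)) = (Q.map χ).eval (χ (T θ)) := hom_eval χ Q (T θ)
  have h16 : Q.map χ = P := by
    rw [Polynomial.map_map, hχ, Polynomial.map_id]
  rw [h16] at h15
  rw [← h15, hθ, map_zero]

end Pool.Agent.Work.MP_ab22a4_ag
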