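import Mathlib
import Pool.Agent.Work.MP_ab22a4_ag.Alg
import Pool.Agent.Work.MP_ab22a4_ag.Root

namespace Pool.Agent.Work.MP_ab22a4_ag

open Polynomial

open scoped IntermediateField.algebraAdjoinAdjoin in
lemma exists_poly_of_isAlgebraic {ι k K : Type*} [Field k] [Field K] [Algebra k K] (u : ι → K)
    (E : IntermediateField k K) (hE : E ≤ IntermediateField.adjoin k (Set.range u)) (θ : K)
    (hθ : IsAlgebraic E θ) : ∃ R : (MvPolynomial ι k)[X], R ≠ 0 ∧
      (R.map (MvPolynomial.aeval (R := k) u).toRingHom).eval θ = 0 := by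
  classical
  set E' := IntermediateField.adjoin k (Set.range u) with hE'
  have h1 : IsAlgebraic E' θ := by
    obtain ⟨p, hp, hpθ⟩ := hθ
    refine ⟨p.map (IntermediateField.inclusion hE).toRingHom, ?_, ?_⟩
    · rw [Ne, Polynomial.map_eq_zero_iff]
      · exact hp
      · exact (IntermediateField.inclusion hE).toRingHom.injective
    · rw [Polynomial.aeval_def, Polynomial.eval₂_map]
      rw [Polynomial.aeval_def] at hpθ
      exact hpθ
  have h2 : IsAlgebraic (Algebra.adjoin k (Set.range u)) θ :=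
    (IsFractionRing.isAlgebraic_iff (Algebra.adjoin k (Set.range u)) E' K).2 h1
  obtain ⟨p, hp, hpθ⟩ := h2
  have hmem : ∀ x, MvPolynomial.aeval (R := k) u x ∈ Algebra.adjoin k (Set.range u) := by
    intro x
    rw [Algebra.adjoin_range_eq_range_aeval]
    exact ⟨x, rfl⟩
  let g : MvPolynomial ι k →ₐ[k] Algebra.adjoin k (Set.range u) :=
    (MvPolynomial.aeval (R := k) u).codRestrict _ hmem
  have hg : Function.Surjective g.toRingHom := by
    rintro ⟨x, hx⟩
    have hx' := hx
    rw [Algebra.adjoin_range_eq_range_aeval] at hx'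
    obtain ⟨y, hy⟩ := hx'
    exact ⟨y, Subtype.ext hy⟩
  obtain ⟨R, hR⟩ := Polynomial.map_surjective g.toRingHom hg p
  refine ⟨R, ?_, ?_⟩
  · rintro rfl
    rw [Polynomial.map_zero] at hR
    exact hp hR.symm
  · rw [← hR, Polynomial.aeval_def, Polynomial.eval₂_map] at hpθ
    rw [Polynomial.eval_map]
    exact hpθ

theorem alg_data' {A K : Type*} [CommRing A] [IsDomain A] [IsIntegrallyClosed A] [CharZero A]
    [Field K] (f : A →+* K) (hinj : Function.Injective f) (θ : K)
    (hθ : ∃ R : A[X], R ≠ 0 ∧ (R.map f).eval θ = 0) :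
    ∃ (α : A) (P : A[X]) (D : A), α ≠ 0 ∧ D ≠ 0 ∧ P.Monic ∧ (P.map f).eval (f α * θ) = 0 ∧
      (∃ a b : A[X], a * P + b * derivative P = C D) ∧
      ∀ r : A, P.eval r = 0 → f α * θ = f r := by
  let _ : Algebra A K := f.toAlgebra
  have hθ' : IsAlgebraic A θ := by
    obtain ⟨R, hR, hR0⟩ := hθ
    refine ⟨R, hR, ?_⟩
    rw [Polynomial.aeval_def, ← Polynomial.eval_map]
    exact hR0
  obtain ⟨α, P, D, h1, h2, h3, h4, h5, h6⟩ := alg_data (A := A) (K := K) hinj θ hθ'
  refine ⟨α, P, D, h1, h2, h3, ?_, h5, h6⟩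
  rw [Polynomial.aeval_def, ← Polynomial.eval_map] at h4
  exact h4

/-- the core: an algebraic element all of whose restrictions to arcs are polynomial roots lies in
the base -/
theorem root_criterion {k K : Type*} [Field k] [IsAlgClosed k] [CharZero k] [Field K]
    {n : ℕ} (f : MvPolynomial (Fin n) k →+* K) (hinj : Function.Injective f) (θ : K)
    (hθ : ∃ R : (MvPolynomial (Fin n) k)[X], R ≠ 0 ∧ (R.map f).eval θ = 0)
    (ρ : Fin n → k[X]) (hρ : ∀ i, (ρ i).eval 0 = 0) (p : MvPolynomial (Fin n) k) (hp : p ≠ 0)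
    (h : ∀ x0 c0 : Fin n → k, MvPolynomial.eval x0 p ≠ 0 → ∃ θ' : FractionRing k[X],
      ∀ P : (MvPolynomial (Fin n) k)[X], (P.map f).eval θ = 0 →
        (P.map ((algebraMap k[X] (FractionRing k[X])).comp
          (MvPolynomial.aeval (arc x0 ρ c0)).toRingHom)).eval θ' = 0) :
    ∃ α r : MvPolynomial (Fin n) k, α ≠ 0 ∧ f α * θ = f r := by
  classical
  have : Infinite k := inferInstance
  have hcz : CharZero (MvPolynomial (Fin n) k) :=
    charZero_of_injective_algebraMap (R := k) (MvPolynomial.C_injective (Fin n) k)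
  obtain ⟨α, P, D, hα, hD, hPm, hP0, ⟨a, b, hab⟩, hPr⟩ := alg_data' f hinj θ hθ
  obtain ⟨x0, hx0⟩ : ∃ x0, MvPolynomial.eval x0 (p * D) ≠ 0 := by
    by_contra hcon
    push Not at hcon
    exact mul_ne_zero hp hD (MvPolynomial.funext fun x => by rw [hcon x, map_zero])
  rw [map_mul] at hx0
  have hx1 : MvPolynomial.eval x0 p ≠ 0 := left_ne_zero_of_mul hx0
  have hx2 : MvPolynomial.eval x0 D ≠ 0 := right_ne_zero_of_mul hx0
  have hsep : (P.map (MvPolynomial.eval x0)).Separable := by
    have h1 := congrArg (Polynomial.map (MvPolynomial.eval x0)) hab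
    rw [Polynomial.map_add, Polynomial.map_mul, Polynomial.map_mul, Polynomial.map_C,
      ← Polynomial.derivative_map] at h1
    refine ⟨C (MvPolynomial.eval x0 D)⁻¹ * a.map (MvPolynomial.eval x0),
      C (MvPolynomial.eval x0 D)⁻¹ * b.map (MvPolynomial.eval x0), ?_⟩
    have h2 : C (MvPolynomial.eval x0 D)⁻¹ * C (MvPolynomial.eval x0 D) = (1 : k[X]) := by
      rw [← C_mul, inv_mul_cancel₀ hx2, C_1]
    rw [← h2, ← h1]; ring
  obtain ⟨r, hr⟩ := root_of_roots P hPm x0 ρ hρ hsep (by
    intro c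
    obtain ⟨θ', hθ'⟩ := h x0 c hx1
    set γ := (MvPolynomial.aeval (R := k) (arc x0 ρ c)).toRingHom with hγ
    set ι := algebraMap k[X] (FractionRing k[X]) with hι
    have h1 := hθ' (P.comp (C α * X)) (by
      rw [Polynomial.map_comp, Polynomial.eval_comp, Polynomial.map_mul, Polynomial.map_C,
        Polynomial.map_X, Polynomial.eval_mul, Polynomial.eval_C, Polynomial.eval_X]
      exact hP0)
    rw [Polynomial.map_comp, Polynomial.eval_comp, Polynomial.map_mul, Polynomial.map_C,
        Polynomial.map_X, Polynomial.eval_mul, Polynomial.eval_C, Polynomial.eval_X] at h1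
    have hint : IsIntegral k[X] ((ι.comp γ) α * θ') := by
      refine ⟨P.map γ, hPm.map _, ?_⟩
      rw [← Polynomial.eval_map, Polynomial.map_map]
      exact h1
    obtain ⟨r, hr⟩ := IsIntegrallyClosed.isIntegral_iff.1 hint
    refine ⟨r, ?_⟩
    apply IsFractionRing.injective k[X] (FractionRing k[X])
    rw [map_zero, hom_eval, Polynomial.map_map, hr]
    exact h1)
  exact ⟨α, r, hα, hPr r hr⟩

end Pool.Agent.Work.MP_ab22a4_ag
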