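import Mathlib

namespace Pool.Agent.Work.MP_ab22a4_ag

open MvPolynomial

variable {k : Type*} [Field k]

/-- closed subsets of affine space -/
def ZClosed {ι : Type*} (A : Set (ι → k)) : Prop :=
  ∃ S : Set (MvPolynomial ι k), ∀ c, c ∈ A ↔ ∀ F ∈ S, eval c F = 0

/-- evaluation of iterated polynomials -/
noncomputable def ev2 {ι κ : Type*} (c : ι → k) (z : κ → k) : MvPolynomial κ (MvPolynomial ι k) →+* k :=
  (eval z).comp (map (eval c))

lemma ev2_sumEquiv {ι κ : Type*} (c : ι → k) (z : κ → k) (G : MvPolynomial (κ ⊕ ι) k) :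
    ev2 c z (sumRingEquiv k κ ι G) = eval (Sum.elim z c) G := by
  have : (ev2 c z).comp (sumRingEquiv k κ ι).toRingHom = eval (Sum.elim z c) := by
    apply MvPolynomial.ringHom_ext
    · intro a
      simp [ev2]
    · intro i
      rcases i with i | i
      · simp [ev2]
      · simp [ev2]
  rw [← this]; rfl

lemma homog_eval_smul {σ : Type*} {F : MvPolynomial σ k} {n : ℕ} (hF : F.IsHomogeneous n)
    (l : k) (z : σ → k) : eval (l • z) F = l ^ n * eval z F := by
  rw [MvPolynomial.eval_eq, MvPolynomial.eval_eq, Finset.mul_sum]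
  apply Finset.sum_congr rfl
  intro d hd
  have hdeg : d.degree = n := by
    by_contra hne
    exact (MvPolynomial.mem_support_iff.1 hd) (hF.coeff_eq_zero hne)
  have : ∏ i ∈ d.support, (l • z) i ^ d i = l ^ n * ∏ i ∈ d.support, z i ^ d i := by
    simp only [Pi.smul_apply, smul_eq_mul, mul_pow]
    rw [Finset.prod_mul_distrib, Finset.prod_pow_eq_pow_sum]
    congr 2
  rw [this]; ring

/-- if all dilates of z are zeros of F then z is a zero of the homogeneous components of F -/
lemma homogComp_eval_zero {σ : Type*} [Infinite k] {F : MvPolynomial σ k} {z : σ → k}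
    (h : ∀ l : k, l ≠ 0 → eval (l • z) F = 0) (n : ℕ) : eval z (homogeneousComponent n F) = 0 := by
  classical
  let q : Polynomial k := ∑ m ∈ Finset.range (F.totalDegree + 1),
    Polynomial.C (eval z (homogeneousComponent m F)) * Polynomial.X ^ m
  have hq : ∀ l : k, l ≠ 0 → q.eval l = 0 := by
    intro l hl
    have h1 := h l hl
    rw [← MvPolynomial.sum_homogeneousComponent F, map_sum] at h1
    rw [← h1]
    simp only [q, Polynomial.eval_finsetSum]
    apply Finset.sum_congr rfl
    intro m _
    rw [homog_eval_smul (homogeneousComponent_isHomogeneous m F)]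
    rw [Polynomial.eval_mul, Polynomial.eval_C, Polynomial.eval_pow, Polynomial.eval_X, mul_comm]
  have hq0 : q = 0 := by
    have h2 : q * Polynomial.X = 0 := by
      apply Polynomial.funext
      intro l
      by_cases hl : l = 0
      · simp [hl]
      · simp [hq l hl]
    rcases mul_eq_zero.1 h2 with h3 | h3
    · exact h3
    · exact absurd h3 Polynomial.X_ne_zero
  by_cases hn : n ≤ F.totalDegree
  · have h4 : q.coeff n = eval z (homogeneousComponent n F) := by
      simp only [q, Polynomial.finsetSum_coeff, Polynomial.coeff_C_mul, Polynomial.coeff_X_pow,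
        mul_ite, mul_one, mul_zero]
      rw [Finset.sum_ite_eq]
      simp [hn]
    rw [← h4, hq0]; simp
  · push Not at hn
    rw [homogeneousComponent_eq_zero _ _ hn]; simp

lemma map_homogComp {σ R S : Type*} [CommRing R] [CommRing S] (f : R →+* S) (F : MvPolynomial σ R)
    (n : ℕ) : map f (homogeneousComponent n F) = homogeneousComponent n (map f F) := by
  classical
  ext d
  rw [coeff_map, coeff_homogeneousComponent, coeff_homogeneousComponent, coeff_map]
  split_ifs <;> simp

theorem elim_closed [IsAlgClosed k] {ι κ : Type*} [Finite κ] (T : (κ → k) → (ι → k) → Prop)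
    (S : Set (MvPolynomial (κ ⊕ ι) k))
    (hT : ∀ z c, T z c ↔ ∀ F ∈ S, eval (Sum.elim z c) F = 0)
    (hscale : ∀ z c (l : k), l ≠ 0 → T z c → T (l • z) c) :
    ZClosed {c : ι → k | ∃ z : κ → k, z ≠ 0 ∧ T z c} := by
  classical
  have : Infinite k := inferInstance
  have := Fintype.ofFinite κ
  refine ⟨{Δ | ∀ c, (∃ z : κ → k, z ≠ 0 ∧ T z c) → eval c Δ = 0}, fun c0 => ⟨?_, ?_⟩⟩
  · rintro hc F hF
    exact hF c0 hc
  intro hall
  by_contra hno
  simp only [Set.mem_ofPred_eq, not_exists, not_and] at hno
  -- the ideal of T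
  let I : Ideal (MvPolynomial κ (MvPolynomial ι k)) :=
    { carrier := {G | ∀ z c, T z c → ev2 c z G = 0}
      add_mem' := by
        intro a b ha hb z c h
        rw [map_add, ha z c h, hb z c h, add_zero]
      zero_mem' := by
        intro z c _
        rw [map_zero]
      smul_mem' := by
        intro a b hb z c h
        rw [smul_eq_mul, map_mul, hb z c h, mul_zero] }
  have hI : ∀ G, G ∈ I ↔ ∀ z c, T z c → ev2 c z G = 0 := fun G => Iff.rfl
  have hsurj : Function.Surjective (map (σ := κ) (eval c0) : MvPolynomial κ (MvPolynomial ι k) →+* _) := by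
    apply MvPolynomial.map_surjective
    intro a
    exact ⟨C a, by simp⟩
  let I0 : Ideal (MvPolynomial κ k) := I.map (map (eval c0))
  have hZ : ∀ z ∈ zeroLocus k I0, z = 0 := by
    intro z hz
    by_contra hz0
    apply hno z hz0
    rw [hT]
    intro F hF
    have h1 : sumRingEquiv k κ ι F ∈ I := by
      rw [hI]
      intro z' c' h
      rw [ev2_sumEquiv]
      exact (hT z' c').1 h F hF
    have h2 := hz (map (eval c0) (sumRingEquiv k κ ι F)) (Ideal.mem_map_of_mem _ h1)
    rw [← ev2_sumEquiv]
    exact h2
  have hrad : idealOfVars κ k ≤ I0.radical := by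
    rw [← vanishingIdeal_zeroLocus_eq_radical (K := k)]
    rw [idealOfVars, Ideal.span_le]
    rintro _ ⟨i, rfl⟩
    intro z hz
    rw [hZ z hz]
    simp
  obtain ⟨M, hM⟩ := Ideal.exists_pow_le_of_le_radical_of_fg hrad (idealOfVars_fg κ k)
  let Mon : Finset (κ →₀ ℕ) := Finset.finsuppAntidiag Finset.univ M
  have hMon : ∀ d : κ →₀ ℕ, d ∈ Mon ↔ d.degree = M := by
    intro d
    simp only [Mon, Finset.mem_finsuppAntidiag, Finset.subset_univ, and_true]
    rw [Finsupp.degree_eq_sum]
  have hG : ∀ d ∈ Mon, ∃ G ∈ I, G.IsHomogeneous M ∧ map (eval c0) G = monomial d 1 := by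
    intro d hd
    have h1 : (monomial d (1 : k)) ∈ I0 := by
      apply hM
      rw [monomial_mem_pow_idealOfVars_iff _ _ one_ne_zero]
      rw [(hMon d).1 hd]
    obtain ⟨G, hGI, hG⟩ := (Ideal.mem_map_iff_of_surjective _ hsurj).1 h1
    refine ⟨homogeneousComponent M G, ?_, homogeneousComponent_isHomogeneous M G, ?_⟩
    · rw [hI]
      intro z c h
      have h2 : ∀ l : k, l ≠ 0 → eval (l • z) (map (eval c) G) = 0 := by
        intro l hl
        exact (hI G).1 hGI (l • z) c (hscale z c l hl h)
      have h3 := homogComp_eval_zero h2 M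
      rw [← map_homogComp] at h3
      exact h3
    · rw [map_homogComp, hG]
      exact homogeneousComponent_eq_self (isHomogeneous_monomial 1 ((hMon d).1 hd))
  choose! G hGI hGh hG0 using hG
  let A : Matrix Mon Mon (MvPolynomial ι k) := Matrix.of fun a b => coeff b.1 (G a.1)
  have hA0 : (eval c0) A.det = 1 := by
    rw [RingHom.map_det]
    have : (eval c0).mapMatrix A = 1 := by
      ext a b
      simp only [A, RingHom.mapMatrix_apply, Matrix.map_apply, Matrix.of_apply]
      rw [← coeff_map, hG0 a.1 a.2, coeff_monomial, Matrix.one_apply]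
      by_cases hab : a = b
      · simp [hab]
      · rw [if_neg (fun h => hab (Subtype.ext h)), if_neg hab]
    rw [this, Matrix.det_one]
  have hzero : eval c0 A.det = 0 := by
    apply hall
    rintro c ⟨z, hz, hTz⟩
    rw [RingHom.map_det]
    rw [← Matrix.exists_mulVec_eq_zero_iff]
    refine ⟨fun b => ∏ i ∈ b.1.support, z i ^ b.1 i, ?_, ?_⟩
    · intro h0
      obtain ⟨i, hi⟩ : ∃ i, z i ≠ 0 := by
        by_contra hcon
        push Not at hcon
        exact hz (funext hcon)
      have hmem : Finsupp.single i M ∈ Mon := by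
        rw [hMon]; simp
      have := congrFun h0 ⟨Finsupp.single i M, hmem⟩
      simp only [Pi.zero_apply] at this
      rw [Finset.prod_eq_zero_iff] at this
      obtain ⟨j, hj, hj0⟩ := this
      have hji : j = i := by
        by_contra hne
        rw [Finsupp.mem_support_iff, Finsupp.single_apply, if_neg (Ne.symm hne)] at hj
        exact hj rfl
      rw [hji] at hj0
      exact (pow_ne_zero _ hi) hj0
    · ext a
      have h1 : ev2 c z (G a.1) = 0 := (hI _).1 (hGI a.1 a.2) z c hTz
      have h2 : eval z (map (eval c) (G a.1)) = 0 := h1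
      rw [MvPolynomial.eval_eq] at h2
      simp only [Matrix.mulVec, dotProduct, Pi.zero_apply, RingHom.mapMatrix_apply,
        Matrix.map_apply, Matrix.of_apply, A]
      rw [← h2]
      have hsub : (map (eval c) (G a.1)).support ⊆ Mon := by
        intro d hd
        rw [hMon]
        by_contra hne
        exact (MvPolynomial.mem_support_iff.1 hd) (((hGh a.1 a.2).map _).coeff_eq_zero hne)
      rw [Finset.sum_subset hsub (by
        intro d _ hd
        rw [MvPolynomial.notMem_support_iff.1 hd, zero_mul])]
      rw [← Finset.sum_coe_sort Mon]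
      apply Finset.sum_congr rfl
      intro b _
      rw [coeff_map]
  rw [hA0] at hzero
  exact one_ne_zero hzero

end Pool.Agent.Work.MP_ab22a4_ag
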