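import Mathlib
import Pool.Agent.Work.MP_ab22a4_ag.Defs
import Pool.Agent.Work.MP_ab22a4_ag.Elim

namespace Pool.Agent.Work.MP_ab22a4_ag

open MvPolynomial

variable {k : Type*} [Field k] {ι σ τ : Type*}

lemma isClosed_iff_cone (Z : Set (PS k ι)) :
    IsClosed Z ↔ ∃ S : Set (MvPolynomial ι k), ∀ (v : ι → k) (hv : v ≠ 0),
      Projectivization.mk k v hv ∈ Z ↔ ∀ F ∈ S, eval v F = 0 := by
  rw [← isOpen_compl_iff]
  change Zᶜᶜ ∈ _ ↔ _
  rw [compl_compl]
  rfl

/-- cones: sets stable under nonzero scalars -/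
def IsCone (A : Set (ι → k)) : Prop := ∀ (l : k) (c : ι → k), l ≠ 0 → c ∈ A → l • c ∈ A

lemma IsCone.mem_iff {A : Set (ι → k)} (hA : IsCone A) (l : k) (hl : l ≠ 0) (c : ι → k) :
    l • c ∈ A ↔ c ∈ A := by
  refine ⟨fun h => ?_, hA l c hl⟩
  have := hA l⁻¹ _ (inv_ne_zero hl) h
  rwa [smul_smul, inv_mul_cancel₀ hl, one_smul] at this

lemma exists_rep_mk (v : ι → k) (hv : v ≠ 0) :
    ∃ l : k, l ≠ 0 ∧ (Projectivization.mk k v hv).rep = l • v := by
  obtain ⟨a, ha⟩ := Projectivization.exists_smul_eq_mk_rep k v hv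
  exact ⟨a, a.ne_zero, ha.symm⟩

lemma IsCone.rep_mk_mem {A : Set (ι → k)} (hA : IsCone A) (v : ι → k) (hv : v ≠ 0) :
    (Projectivization.mk k v hv).rep ∈ A ↔ v ∈ A := by
  obtain ⟨l, hl, h⟩ := exists_rep_mk v hv
  rw [h, hA.mem_iff l hl]

lemma isClosed_of_cone {A : Set (ι → k)} (hA : IsCone A) (hc : ZClosed A) :
    IsClosed {P : PS k ι | P.rep ∈ A} := by
  rw [isClosed_iff_cone]
  obtain ⟨S, hS⟩ := hc
  refine ⟨S, fun v hv => ?_⟩
  change (Projectivization.mk k v hv).rep ∈ A ↔ _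
  rw [hA.rep_mk_mem, hS]

lemma bform_smul (d : ℕ) (l : k) (c : σ × Fin (d + 1) → k) (p : Fin 2 → k) :
    bform d (l • c) p = l • bform d c p := by
  funext i
  simp only [bform, Pi.smul_apply, smul_eq_mul, Finset.mul_sum]
  apply Finset.sum_congr rfl
  intro j _
  ring

lemma bform_homog (d : ℕ) (l : k) (c : σ × Fin (d + 1) → k) (p : Fin 2 → k) :
    bform d c (l • p) = l ^ d • bform d c p := by
  funext i
  simp only [bform, Pi.smul_apply, smul_eq_mul, Finset.mul_sum]
  apply Finset.sum_congr rfl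
  intro j _
  have : l ^ d = l ^ (d - (j : ℕ)) * l ^ (j : ℕ) := by
    rw [← pow_add, Nat.sub_add_cancel (Nat.lt_succ_iff.1 j.2)]
  rw [this, mul_pow, mul_pow]
  ring

/-- the point with affine coordinate `t` of the projective line -/
def pt (t : k) : Fin 2 → k := ![1, t]

lemma pt_ne_zero (t : k) : pt t ≠ 0 := by
  intro h
  have := congrFun h 0
  simp [pt] at this

/-- the polynomial in the affine coordinate attached to a binary form -/
noncomputable def toPoly (d : ℕ) (c : σ × Fin (d + 1) → k) (i : σ) : Polynomial k :=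
  ∑ j : Fin (d + 1), Polynomial.C (c (i, j)) * Polynomial.X ^ (j : ℕ)

lemma toPoly_eval (d : ℕ) (c : σ × Fin (d + 1) → k) (i : σ) (t : k) :
    (toPoly d c i).eval t = bform d c (pt t) i := by
  simp [toPoly, bform, pt, Polynomial.eval_finsetSum]

lemma toPoly_natDegree (d : ℕ) (c : σ × Fin (d + 1) → k) (i : σ) :
    (toPoly d c i).natDegree ≤ d := by
  apply Polynomial.natDegree_sum_le_of_forall_le
  intro j _
  refine (Polynomial.natDegree_C_mul_X_pow_le _ _).trans (Nat.lt_succ_iff.1 j.2)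

lemma toPoly_coeff (d : ℕ) (c : σ × Fin (d + 1) → k) (i : σ) (j : Fin (d + 1)) :
    (toPoly d c i).coeff j = c (i, j) := by
  classical
  simp only [toPoly, Polynomial.finsetSum_coeff, Polynomial.coeff_C_mul, Polynomial.coeff_X_pow]
  rw [Finset.sum_eq_single j]
  · simp
  · intro b _ hb
    rw [if_neg (fun h => hb (Fin.ext h.symm)), mul_zero]
  · simp

/-- coefficients of a family of polynomials of degree at most `d` -/
def ofPoly (d : ℕ) (q : σ → Polynomial k) : σ × Fin (d + 1) → k := fun x => (q x.1).coeff x.2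

lemma toPoly_ofPoly (d : ℕ) (q : σ → Polynomial k) (i : σ) (h : (q i).natDegree ≤ d) :
    toPoly d (ofPoly d q) i = q i := by
  rw [toPoly, Polynomial.as_sum_range' (q i) (d + 1) (Nat.lt_succ_of_le h), Finset.sum_range]
  apply Finset.sum_congr rfl
  intro j _
  rw [← Polynomial.C_mul_X_pow_eq_monomial]
  rfl

lemma toPoly_injective (d : ℕ) (c c' : σ × Fin (d + 1) → k) (h : ∀ i, toPoly d c i = toPoly d c' i) :
    c = c' := by
  funext ⟨i, j⟩
  rw [← toPoly_coeff d c, ← toPoly_coeff d c', h]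

/-- a binary form which is nonzero somewhere on the affine part -/
lemma exists_toPoly_ne_zero (d : ℕ) (c : σ × Fin (d + 1) → k) (h : c ≠ 0) :
    ∃ i, toPoly d c i ≠ 0 := by
  by_contra hcon
  push Not at hcon
  apply h
  apply toPoly_injective
  intro i
  rw [hcon i]
  simp [toPoly]

/-- universal binary forms as polynomials in the coefficients -/
noncomputable def ubf (d : ℕ) (φ : σ × Fin (d + 1) → ι) (p : Fin 2 → k) (i : σ) :
    MvPolynomial ι k :=
  ∑ j : Fin (d + 1), X (φ (i, j)) * C (p 0 ^ (d - (j : ℕ)) * p 1 ^ (j : ℕ))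

lemma eval_ubf (d : ℕ) (φ : σ × Fin (d + 1) → ι) (p : Fin 2 → k) (i : σ) (v : ι → k) :
    eval v (ubf d φ p i) = bform d (fun x => v (φ x)) p i := by
  simp [ubf, bform]

lemma mem_Mor_mk {d : ℕ} {Z : Set (PS k σ)} (c : σ × Fin (d + 1) → k) (hc : c ≠ 0)
    (h : ∀ p : Fin 2 → k, p ≠ 0 → ∃ h : bform d c p ≠ 0,
      Projectivization.mk k (bform d c p) h ∈ Z) :
    Projectivization.mk k c hc ∈ Mor d Z := by
  obtain ⟨l, hl, hr⟩ := exists_rep_mk c hc
  intro p hp
  obtain ⟨h1, h2⟩ := h p hp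
  have e : bform d (Projectivization.mk k c hc).rep p = l • bform d c p := by
    rw [hr, bform_smul]
  have h3 : bform d (Projectivization.mk k c hc).rep p ≠ 0 := by
    rw [e]; exact smul_ne_zero hl h1
  refine ⟨h3, ?_⟩
  have : Projectivization.mk k (bform d (Projectivization.mk k c hc).rep p) h3 =
      Projectivization.mk k (bform d c p) h1 := by
    rw [Projectivization.mk_eq_mk_iff']
    exact ⟨l, e.symm⟩
  rw [this]
  exact h2

/-- having no common zero is an open condition -/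
lemma noCommonZero_open [IsAlgClosed k] {d : ℕ} (c0 : σ × Fin (d + 1) → k)
    (h0 : ∀ p : Fin 2 → k, p ≠ 0 → bform d c0 p ≠ 0) :
    ∃ N : MvPolynomial (σ × Fin (d + 1)) k, eval c0 N ≠ 0 ∧
      ∀ c, eval c N ≠ 0 → ∀ p : Fin 2 → k, p ≠ 0 → bform d c p ≠ 0 := by
  classical
  obtain ⟨S, hS⟩ := elim_closed (k := k) (ι := σ × Fin (d + 1)) (κ := Fin 2)
    (fun p c => bform d c p = 0)
    {F | ∃ i, F = ∑ j : Fin (d + 1), X (Sum.inr (i, j)) *
      (X (Sum.inl 0) ^ (d - (j : ℕ)) * X (Sum.inl 1) ^ (j : ℕ))}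
    (by
      intro z c
      constructor
      · rintro h _ ⟨i, rfl⟩
        have := congrFun h i
        simpa [bform] using this
      · intro h
        funext i
        have := h _ ⟨i, rfl⟩
        simpa [bform] using this)
    (by
      intro z c l _ h
      rw [bform_homog, h, smul_zero])
  have h1 : ¬ (∀ F ∈ S, eval c0 F = 0) := by
    rw [← hS]
    rintro ⟨z, hz, h⟩
    exact h0 z hz h
  push Not at h1
  obtain ⟨N, hN, hN0⟩ := h1
  refine ⟨N, hN0, fun c hc p hp hcp => ?_⟩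
  exact hc ((hS c).1 ⟨p, hp, hcp⟩ N hN)

end Pool.Agent.Work.MP_ab22a4_ag
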