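import Mathlib
import Pool.Agent.Work.MP_ab22a4_ag.Basic

namespace Pool.Agent.Work.MP_ab22a4_ag

variable {k : Type*} [Field k]

open Polynomial in
/-- every nonzero polynomial is a squarefree polynomial times a square -/
lemma exists_squarefree_mul_sq (D : k[X]) (hD : D ≠ 0) :
    ∃ h b : k[X], Squarefree h ∧ D = h * b ^ 2 := by
  classical
  have hex : ∃ n : ℕ, ∃ b : k[X], b ^ 2 ∣ D ∧ D.natDegree - b.natDegree = n :=
    ⟨_, 1, by simp, rfl⟩
  obtain ⟨b, hb, hn⟩ := Nat.find_spec hex
  obtain ⟨h, hh⟩ := hb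
  have hb0 : b ≠ 0 := by
    rintro rfl
    apply hD
    rw [hh]; ring
  have hh0 : h ≠ 0 := by
    rintro rfl
    apply hD
    rw [hh]; ring
  refine ⟨h, b, ?_, by rw [hh]; ring⟩
  intro x hx
  by_contra hu
  obtain ⟨y, hy⟩ := hx
  have hx0 : x ≠ 0 := by
    rintro rfl
    apply hh0
    rw [hy]; ring
  have hy0 : y ≠ 0 := by
    rintro rfl
    apply hh0
    rw [hy]; ring
  have hdx : 0 < x.natDegree := by
    rcases Nat.eq_zero_or_pos x.natDegree with h0 | h0
    · exfalso
      apply hu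
      rw [Polynomial.eq_C_of_natDegree_eq_zero h0]
      apply Polynomial.isUnit_C.2
      rw [isUnit_iff_ne_zero]
      intro h1
      apply hx0
      rw [Polynomial.eq_C_of_natDegree_eq_zero h0, h1, Polynomial.C_0]
    · exact h0
  have hdeg : D.natDegree = (b * x).natDegree + (b * x).natDegree + y.natDegree := by
    have : D = (b * x) * (b * x) * y := by rw [hh, hy]; ring
    rw [this, Polynomial.natDegree_mul (by positivity) hy0, Polynomial.natDegree_mul]
    · exact mul_ne_zero hb0 hx0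
    · exact mul_ne_zero hb0 hx0
  have hdeg2 : (b * x).natDegree = b.natDegree + x.natDegree :=
    Polynomial.natDegree_mul hb0 hx0
  have hlt : D.natDegree - (b * x).natDegree < Nat.find hex := by
    rw [← hn]; omega
  exact Nat.find_min hex hlt ⟨b * x, ⟨y, by rw [hh, hy]; ring⟩, rfl⟩

open Polynomial in
/-- symmetric matrices of rank at most one over the polynomial ring -/
lemma rank_one_structure {n : ℕ} (d : ℕ) (q : Fin n → Fin n → k[X])
    (hd : ∀ i j, (q i j).natDegree ≤ d)
    (hsymm : ∀ i j, q i j = q j i) (hrk : ∀ i j l m, q i j * q l m = q i m * q l j) :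
    ∃ (e : ℕ) (h : k[X]) (a : Fin n → k[X]), 2 * e ≤ d ∧ h.natDegree ≤ d - 2 * e ∧
      (∀ i, (a i).natDegree ≤ e) ∧ ∀ i j, q i j = h * a i * a j := by
  classical
  by_cases hz : ∀ i, q i i = 0
  · refine ⟨0, 0, fun _ => 0, by omega, by simp, by simp, fun i j => ?_⟩
    have := hrk i j j i
    rw [hz i, hz j, zero_mul, hsymm j i] at this
    simpa using this
  push Not at hz
  obtain ⟨i0, hi0⟩ := hz
  obtain ⟨h, b, hsf, hD⟩ := exists_squarefree_mul_sq (q i0 i0) hi0
  have hh0 : h ≠ 0 := hsf.ne_zero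
  have hb0 : b ≠ 0 := by
    rintro rfl
    apply hi0
    rw [hD]; ring
  -- every entry of the row i0 is divisible by b and then by h
  have hrow : ∀ j, ∃ a : k[X], q i0 j = b * h * a := by
    intro j
    have h1 : q i0 j ^ 2 = h * b ^ 2 * q j j := by
      rw [← hD]
      have := hrk i0 i0 j j
      rw [this, hsymm j i0]; ring
    have h2 : b ^ 2 ∣ q i0 j ^ 2 := ⟨h * q j j, by rw [h1]; ring⟩
    have h3 : b ∣ q i0 j := (IsIntegrallyClosed.pow_dvd_pow_iff two_ne_zero).1 h2
    obtain ⟨r, hr⟩ := h3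
    have h4 : r ^ 2 = h * q j j := by
      have : b ^ 2 * r ^ 2 = b ^ 2 * (h * q j j) := by
        rw [← mul_pow, ← hr, h1]; ring
      exact mul_left_cancel₀ (pow_ne_zero 2 hb0) this
    have h5 : h ∣ r ^ 2 := ⟨_, h4⟩
    have h6 : h ∣ r :=
      (hsf.dvd_pow_iff_dvd two_ne_zero).1 h5
    obtain ⟨a, ha⟩ := h6
    exact ⟨a, by rw [hr, ha]; ring⟩
  choose a ha using hrow
  have hqq : ∀ i j, q i j = h * a i * a j := by
    intro i j
    have h1 : q i0 i0 * q i j = (b * h * a j) * (b * h * a i) := by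
      rw [hrk i0 i0 i j, hsymm i i0, ← ha i, ← ha j]
    have h2 : (h * b ^ 2) * q i j = (h * b ^ 2) * (h * a i * a j) := by
      rw [← hD, h1, hD]; ring
    exact mul_left_cancel₀ (mul_ne_zero hh0 (pow_ne_zero 2 hb0)) h2
  let e : ℕ := Finset.univ.sup (fun i => (a i).natDegree)
  have hle : ∀ i, (a i).natDegree ≤ e := fun i =>
    Finset.le_sup (f := fun i => (a i).natDegree) (Finset.mem_univ i)
  obtain ⟨i1, -, hi1⟩ := Finset.exists_mem_eq_sup (Finset.univ : Finset (Fin n)) ⟨i0, Finset.mem_univ _⟩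
    (fun i => (a i).natDegree)
  have hi1' : e = (a i1).natDegree := hi1
  have hdeg : h.natDegree + 2 * e ≤ d := by
    by_cases he : e = 0
    · have h1 := hd i0 i0
      rw [hD, Polynomial.natDegree_mul hh0 (pow_ne_zero 2 hb0)] at h1
      omega
    · have hai1 : a i1 ≠ 0 := by
        intro h0
        rw [h0, Polynomial.natDegree_zero] at hi1'
        exact he hi1'
      have h1 := hd i1 i1
      rw [hqq, Polynomial.natDegree_mul (mul_ne_zero hh0 hai1) hai1,
        Polynomial.natDegree_mul hh0 hai1] at h1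
      omega
  exact ⟨e, h, a, by omega, by omega, hle, hqq⟩

end Pool.Agent.Work.MP_ab22a4_ag
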