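import Mathlib
import Pool.Agent.Work.MP_ab22a4_ag.Struct

namespace Pool.Agent.Work.MP_ab22a4_ag

open MvPolynomial

variable {k : Type*} [Field k]

/-- abbreviation for the coordinates on the ambient projective space of the weighted space -/
abbrev Co := Option (Fin 3 × Fin 3)

/-- vectors whose matrix part is symmetric of rank at most one -/
def RankOne (w : Co → k) : Prop := ∃ (l : k) (b : Fin 3 → k), ∀ i j, w (some (i, j)) = l * b i * b j

lemma rankOne_smul {w : Co → k} (h : RankOne w) (m : k) : RankOne (m • w) := by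
  obtain ⟨l, b, h⟩ := h
  refine ⟨m * l, b, fun i j => ?_⟩
  rw [Pi.smul_apply, h, smul_eq_mul]; ring

lemma mk_mem_W [IsAlgClosed k] (w : Co → k) (hw : w ≠ 0) :
    Projectivization.mk k w hw ∈ W k ↔ RankOne w := by
  obtain ⟨l, hl, hr⟩ := exists_rep_mk w hw
  constructor
  · rintro ⟨x, y, hxy⟩
    have : w = l⁻¹ • (Projectivization.mk k w hw).rep := by
      rw [hr, smul_smul, inv_mul_cancel₀ hl, one_smul]
    rw [this]
    apply rankOne_smul
    rw [hxy]
    exact ⟨1, x, fun i j => by simp [emb]⟩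
  · intro h
    have h2 := rankOne_smul h l
    rw [← hr] at h2
    obtain ⟨m, b, hb⟩ := h2
    obtain ⟨s, hs⟩ := IsAlgClosed.exists_pow_nat_eq m (n := 2) (by norm_num)
    refine ⟨fun i => s * b i, (Projectivization.mk k w hw).rep none, ?_⟩
    funext x
    rcases x with _ | ⟨i, j⟩
    · rfl
    · rw [hb, ← hs]
      simp only [emb]
      ring

/-- the cone over the component with invariant `e` -/
def WC (k : Type*) [Field k] (d e : ℕ) : Set (Co × Fin (d + 1) → k) :=
  {c | ∃ (h : Polynomial k) (a : Fin 3 → Polynomial k), h.natDegree ≤ d - 2 * e ∧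
    (∀ i, (a i).natDegree ≤ e) ∧ ∀ i j, toPoly d c (some (i, j)) = h * a i * a j}

lemma toPoly_smul {σ : Type*} (d : ℕ) (l : k) (c : σ × Fin (d + 1) → k) (i : σ) :
    toPoly d (l • c) i = Polynomial.C l * toPoly d c i := by
  simp only [toPoly, Pi.smul_apply, smul_eq_mul, Polynomial.C_mul, Finset.mul_sum]
  apply Finset.sum_congr rfl
  intro j _
  ring

lemma WC_isCone (d e : ℕ) : IsCone (WC k d e) := by
  rintro l c hl ⟨h, a, h1, h2, h3⟩
  refine ⟨Polynomial.C l * h, a, (Polynomial.natDegree_C_mul_le _ _).trans h1, h2, fun i j => ?_⟩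
  rw [toPoly_smul, h3]; ring

lemma bform_of_ne {σ : Type*} (d : ℕ) (c : σ × Fin (d + 1) → k) (p : Fin 2 → k) (hp : p 0 ≠ 0) :
    bform d c p = (p 0) ^ d • bform d c (pt (p 1 / p 0)) := by
  rw [← bform_homog]
  congr 1
  funext i
  fin_cases i
  · simp [pt]
  · simp [pt]; field_simp

lemma bform_of_eq {σ : Type*} (d : ℕ) (c : σ × Fin (d + 1) → k) (p : Fin 2 → k) (hp : p 0 = 0)
    (i : σ) : bform d c p i = (toPoly d c i).coeff d * (p 1) ^ d := by
  have h1 : (toPoly d c i).coeff d = c (i, Fin.last d) := by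
    have := toPoly_coeff d c i (Fin.last d)
    simpa using this
  rw [h1, bform]
  rw [Finset.sum_eq_single (Fin.last d)]
  · simp
  · intro j _ hj
    have : d - (j : ℕ) ≠ 0 := by
      have h2 : (j : ℕ) < d := by
        rcases Nat.lt_or_ge (j : ℕ) d with h | h
        · exact h
        · exact absurd (Fin.ext (by simp; omega)) hj
      omega
    rw [hp, zero_pow this]; ring
  · simp

lemma rankOne_of_WC {d e : ℕ} (hde : 2 * e ≤ d) {c : Co × Fin (d + 1) → k} (hc : c ∈ WC k d e)
    (p : Fin 2 → k) : RankOne (bform d c p) := by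
  obtain ⟨h, a, h1, h2, h3⟩ := hc
  by_cases hp : p 0 = 0
  · refine ⟨h.coeff (d - 2 * e) * (p 1) ^ d, fun i => (a i).coeff e, fun i j => ?_⟩
    rw [bform_of_eq d c p hp, h3]
    have e1 : d = (d - 2 * e) + e + e := by omega
    have e2 : (h * a i * a j).coeff d = h.coeff (d - 2 * e) * (a i).coeff e * (a j).coeff e := by
      conv_lhs => rw [e1]
      rw [Polynomial.coeff_mul_add_eq_of_natDegree_le
          ((Polynomial.natDegree_mul_le).trans (Nat.add_le_add h1 (h2 i))) (h2 j),
        Polynomial.coeff_mul_add_eq_of_natDegree_le h1 (h2 i)]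
    rw [e2]; ring
  · rw [bform_of_ne d c p hp]
    apply rankOne_smul
    refine ⟨h.eval (p 1 / p 0), fun i => (a i).eval (p 1 / p 0), fun i j => ?_⟩
    rw [← toPoly_eval, h3]
    simp

/-- the candidate components -/
def Wset (k : Type*) [Field k] (d e : ℕ) : Set (Mor d (W k)) := {g | g.1.rep ∈ WC k d e}

lemma Wset_cover [IsAlgClosed k] (d : ℕ) (g : Mor d (W k)) :
    ∃ e, 2 * e ≤ d ∧ g ∈ Wset k d e := by
  have hr : ∀ t : k, RankOne (bform d g.1.rep (pt t)) := by
    intro t
    obtain ⟨h1, h2⟩ := g.2 (pt t) (pt_ne_zero t)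
    exact (mk_mem_W _ h1).1 h2
  obtain ⟨e, h, a, he, h1, h2, h3⟩ := rank_one_structure d
    (fun i j => toPoly d g.1.rep (some (i, j))) (fun i j => toPoly_natDegree _ _ _)
    (by
      intro i j
      apply Polynomial.funext
      intro t
      rw [toPoly_eval, toPoly_eval]
      obtain ⟨l, b, hb⟩ := hr t
      rw [hb, hb]; ring)
    (by
      intro i j l m
      apply Polynomial.funext
      intro t
      rw [Polynomial.eval_mul, Polynomial.eval_mul, toPoly_eval, toPoly_eval, toPoly_eval,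
        toPoly_eval]
      obtain ⟨l, b, hb⟩ := hr t
      rw [hb, hb, hb, hb]; ring)
  exact ⟨e, he, h, a, h1, h2, h3⟩

lemma mk_mem_Mor_of_WC [IsAlgClosed k] {d e : ℕ} (hde : 2 * e ≤ d) {c : Co × Fin (d + 1) → k}
    (hc : c ∈ WC k d e) (hc0 : c ≠ 0) (h : ∀ p : Fin 2 → k, p ≠ 0 → bform d c p ≠ 0) :
    Projectivization.mk k c hc0 ∈ Mor d (W k) := by
  apply mem_Mor_mk
  intro p hp
  refine ⟨h p hp, ?_⟩
  rw [mk_mem_W]
  exact rankOne_of_WC hde hc p

/-- parameters for the components -/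
abbrev Par (d e : ℕ) := (Unit × Fin (d - 2 * e + 1)) ⊕ (Fin 3 × Fin (e + 1)) ⊕ Fin (d + 1)

/-- the parametrisation of the component by coefficients -/
noncomputable def parMap (d e : ℕ) (v : Par d e → k) : Co × Fin (d + 1) → k
  | (none, l) => v (Sum.inr (Sum.inr l))
  | (some (i, j), l) => (toPoly (d - 2 * e) (fun x => v (Sum.inl x)) () *
      toPoly e (fun x => v (Sum.inr (Sum.inl x))) i *
      toPoly e (fun x => v (Sum.inr (Sum.inl x))) j).coeff l

/-- the same as polynomials in the parameters -/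
noncomputable def parPoly (k : Type*) [Field k] (d e : ℕ) :
    Co × Fin (d + 1) → MvPolynomial (Par d e) k
  | (none, l) => X (Sum.inr (Sum.inr l))
  | (some (i, j), l) =>
      ((∑ m : Fin (d - 2 * e + 1), Polynomial.C (X (Sum.inl ((), m))) * Polynomial.X ^ (m : ℕ)) *
      (∑ m : Fin (e + 1), Polynomial.C (X (Sum.inr (Sum.inl (i, m)))) * Polynomial.X ^ (m : ℕ)) *
      (∑ m : Fin (e + 1), Polynomial.C (X (Sum.inr (Sum.inl (j, m)))) *
        Polynomial.X ^ (m : ℕ)) : Polynomial (MvPolynomial (Par d e) k)).coeff l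

lemma eval_parPoly (d e : ℕ) (v : Par d e → k) (x : Co × Fin (d + 1)) :
    eval v (parPoly k d e x) = parMap d e v x := by
  rcases x with ⟨_ | ⟨i, j⟩, l⟩
  · simp [parPoly, parMap]
  · simp only [parPoly, parMap]
    rw [← Polynomial.coeff_map]
    congr 1
    simp [toPoly, Polynomial.map_sum]

lemma toPoly_parMap_some {d e : ℕ} (hde : 2 * e ≤ d) (v : Par d e → k) (i j : Fin 3) :
    toPoly d (parMap d e v) (some (i, j)) = toPoly (d - 2 * e) (fun x => v (Sum.inl x)) () *
      toPoly e (fun x => v (Sum.inr (Sum.inl x))) i *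
      toPoly e (fun x => v (Sum.inr (Sum.inl x))) j := by
  have hdeg : (toPoly (d - 2 * e) (fun x => v (Sum.inl x)) () *
      toPoly e (fun x => v (Sum.inr (Sum.inl x))) i *
      toPoly e (fun x => v (Sum.inr (Sum.inl x))) j).natDegree ≤ d := by
    refine (Polynomial.natDegree_mul_le).trans ?_
    have h1 := toPoly_natDegree e (fun x => v (Sum.inr (Sum.inl x))) j
    have h2 := toPoly_natDegree e (fun x => v (Sum.inr (Sum.inl x))) i
    have h3 := toPoly_natDegree (d - 2 * e) (fun x => v (Sum.inl x)) ()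
    have h4 := Polynomial.natDegree_mul_le (p := toPoly (d - 2 * e) (fun x => v (Sum.inl x)) ())
      (q := toPoly e (fun x => v (Sum.inr (Sum.inl x))) i)
    omega
  have := toPoly_ofPoly d (fun _ : Unit => toPoly (d - 2 * e) (fun x => v (Sum.inl x)) () *
      toPoly e (fun x => v (Sum.inr (Sum.inl x))) i *
      toPoly e (fun x => v (Sum.inr (Sum.inl x))) j) () hdeg
  rw [← this]
  rfl

lemma parMap_mem {d e : ℕ} (hde : 2 * e ≤ d) (v : Par d e → k) : parMap d e v ∈ WC k d e :=
  ⟨_, _, toPoly_natDegree _ _ _, fun _ => toPoly_natDegree _ _ _,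
    fun i j => toPoly_parMap_some hde v i j⟩

lemma exists_parMap {d e : ℕ} (hde : 2 * e ≤ d) (c : Co × Fin (d + 1) → k) (hc : c ∈ WC k d e) :
    ∃ v, parMap d e v = c := by
  obtain ⟨h, a, h1, h2, h3⟩ := hc
  let v : Par d e → k := Sum.elim (ofPoly (d - 2 * e) (fun _ => h))
    (Sum.elim (ofPoly e a) (fun l => c (none, l)))
  refine ⟨v, ?_⟩
  apply toPoly_injective
  intro x
  rcases x with _ | ⟨i, j⟩
  · rfl
  · rw [toPoly_parMap_some hde, h3]
    have e1 : toPoly (d - 2 * e) (fun x => v (Sum.inl x)) () = h :=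
      toPoly_ofPoly (d - 2 * e) (fun _ : Unit => h) () h1
    have e2 : ∀ i, toPoly e (fun x => v (Sum.inr (Sum.inl x))) i = a i := fun i =>
      toPoly_ofPoly e a i (h2 i)
    rw [e1, e2, e2]

lemma Wset_preirreducible [IsAlgClosed k] {d e : ℕ} (hde : 2 * e ≤ d) :
    IsPreirreducible (Wset k d e) := by
  have : Infinite k := inferInstance
  rintro U V hU hV ⟨g1, hg1, hg1U⟩ ⟨g2, hg2, hg2V⟩
  -- a polynomial cutting out an open neighbourhood
  have key : ∀ (U : Set (Mor d (W k))), IsOpen U → ∀ g ∈ U, ∃ F : MvPolynomial (Co × Fin (d + 1)) k,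
      eval g.1.rep F ≠ 0 ∧ ∀ g' : Mor d (W k), ∀ c (hc : c ≠ 0), Projectivization.mk k c hc = g'.1 →
        eval c F ≠ 0 → g' ∈ U := by
    intro U hU g hg
    obtain ⟨U', hU', rfl⟩ := isOpen_induced_iff.1 hU
    have hcl : IsClosed U'ᶜ := isClosed_compl_iff.2 hU'
    rw [isClosed_iff_cone] at hcl
    obtain ⟨S, hS⟩ := hcl
    have h1 : ¬ (∀ F ∈ S, eval g.1.rep F = 0) := by
      rw [← hS g.1.rep g.1.rep_nonzero, Projectivization.mk_rep]
      exact fun h => h hg
    push Not at h1
    obtain ⟨F, hF, hF0⟩ := h1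
    refine ⟨F, hF0, fun g' c hc hcg hcF => ?_⟩
    by_contra hno
    have h2 : Projectivization.mk k c hc ∈ U'ᶜ := by
      rw [hcg]; exact hno
    exact hcF ((hS c hc).1 h2 F hF)
  obtain ⟨F1, hF1, hF1'⟩ := key U hU g1 hg1U
  obtain ⟨F2, hF2, hF2'⟩ := key V hV g2 hg2V
  obtain ⟨v1, hv1⟩ := exists_parMap hde _ hg1
  obtain ⟨v2, hv2⟩ := exists_parMap hde _ hg2
  obtain ⟨N, hN1, hN2⟩ := noCommonZero_open g1.1.rep (fun p hp => (g1.2 p hp).1)
  have hcomp : ∀ (F : MvPolynomial (Co × Fin (d + 1)) k) (v : Par d e → k),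
      eval v (bind₁ (parPoly k d e) F) = eval (parMap d e v) F := by
    intro F v
    have : (eval v).comp (bind₁ (parPoly k d e)).toRingHom = eval (parMap d e v) := by
      apply MvPolynomial.ringHom_ext
      · intro a; simp
      · intro x
        simp [eval_parPoly]
    exact RingHom.congr_fun this F
  have hne : bind₁ (parPoly k d e) F1 * bind₁ (parPoly k d e) F2 * bind₁ (parPoly k d e) N ≠ 0 := by
    refine mul_ne_zero (mul_ne_zero ?_ ?_) ?_
    · intro h0
      have := hcomp F1 v1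
      rw [h0, map_zero, hv1] at this
      exact hF1 this.symm
    · intro h0
      have := hcomp F2 v2
      rw [h0, map_zero, hv2] at this
      exact hF2 this.symm
    · intro h0
      have := hcomp N v1
      rw [h0, map_zero, hv1] at this
      exact hN1 this.symm
  obtain ⟨v, hv⟩ : ∃ v, eval v (bind₁ (parPoly k d e) F1 * bind₁ (parPoly k d e) F2 *
      bind₁ (parPoly k d e) N) ≠ 0 := by
    by_contra hcon
    push Not at hcon
    exact hne (MvPolynomial.funext fun v => by rw [hcon v, map_zero])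
  rw [map_mul, map_mul, hcomp, hcomp, hcomp] at hv
  have hc1 : eval (parMap d e v) F1 ≠ 0 := left_ne_zero_of_mul (left_ne_zero_of_mul hv)
  have hc2 : eval (parMap d e v) F2 ≠ 0 := right_ne_zero_of_mul (left_ne_zero_of_mul hv)
  have hc3 : eval (parMap d e v) N ≠ 0 := right_ne_zero_of_mul hv
  have hnz := hN2 _ hc3
  have hc0 : parMap d e v ≠ 0 := by
    intro h0
    apply hnz (pt 0) (pt_ne_zero 0)
    rw [h0]
    funext i
    simp [bform]
  have hmem := parMap_mem hde v
  let g : Mor d (W k) := ⟨Projectivization.mk k _ hc0, mk_mem_Mor_of_WC hde hmem hc0 hnz⟩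
  refine ⟨g, ?_, hF1' g _ hc0 rfl hc1, hF2' g _ hc0 rfl hc2⟩
  exact ((WC_isCone d e).rep_mk_mem _ hc0).2 hmem

end Pool.Agent.Work.MP_ab22a4_ag
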