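import Mathlib
import Pool.Agent.Work.MP_ab22a4_ag.Comp

namespace Pool.Agent.Work.MP_ab22a4_ag

open MvPolynomial

variable {k : Type*} [Field k]

/-- value at `t` of the matrix entry of the parametrisation -/
def rval (D e : ℕ) (h : Unit × Fin (D + 1) → k) (a : Fin 3 × Fin (e + 1) → k) (t : k)
    (i j : Fin 3) : k :=
  bform D h (pt t) () * bform e a (pt t) i * bform e a (pt t) j

/-- proportionality -/
def Prop1 (d D e : ℕ) (a : Fin 3 × Fin (e + 1) → k)
    (hc : (Unit × Fin (D + 1)) ⊕ (Co × Fin (d + 1)) → k) : Prop :=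
  ∀ (t t' : k) (i j i' j' : Fin 3),
    bform d (fun x => hc (Sum.inr x)) (pt t) (some (i, j)) *
        rval D e (fun x => hc (Sum.inl x)) a t' i' j' =
      bform d (fun x => hc (Sum.inr x)) (pt t') (some (i', j')) *
        rval D e (fun x => hc (Sum.inl x)) a t i j

lemma rval_smul_left (D e : ℕ) (l : k) (h : Unit × Fin (D + 1) → k) (a : Fin 3 × Fin (e + 1) → k)
    (t : k) (i j : Fin 3) : rval D e (l • h) a t i j = l * rval D e h a t i j := by
  simp only [rval, bform_smul, Pi.smul_apply, smul_eq_mul]; ring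

lemma rval_smul_right (D e : ℕ) (l : k) (h : Unit × Fin (D + 1) → k) (a : Fin 3 × Fin (e + 1) → k)
    (t : k) (i j : Fin 3) : rval D e h (l • a) t i j = l ^ 2 * rval D e h a t i j := by
  simp only [rval, bform_smul, Pi.smul_apply, smul_eq_mul]; ring

theorem WC_closed [IsAlgClosed k] {d e : ℕ} (hde : 2 * e ≤ d) : ZClosed (WC k d e) := by
  classical
  have : Infinite k := inferInstance
  set D := d - 2 * e with hD
  obtain ⟨S1, hS1⟩ := elim_closed (k := k) (κ := Fin 3 × Fin (e + 1))
    (ι := (Unit × Fin (D + 1)) ⊕ (Co × Fin (d + 1))) (Prop1 d D e)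
    {F | ∃ (t t' : k) (i j i' j' : Fin 3), F =
      ubf d (fun x => Sum.inr (Sum.inr x)) (pt t) (some (i, j)) *
        (ubf D (fun x => Sum.inr (Sum.inl x)) (pt t') () * ubf e Sum.inl (pt t') i' *
          ubf e Sum.inl (pt t') j') -
      ubf d (fun x => Sum.inr (Sum.inr x)) (pt t') (some (i', j')) *
        (ubf D (fun x => Sum.inr (Sum.inl x)) (pt t) () * ubf e Sum.inl (pt t) i *
          ubf e Sum.inl (pt t) j)}
    (by
      intro a hc
      constructor
      · rintro h _ ⟨t, t', i, j, i', j', rfl⟩
        simp only [map_sub, map_mul, eval_ubf, Sum.elim_inr, Sum.elim_inl]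
        rw [sub_eq_zero]
        exact h t t' i j i' j'
      · intro h t t' i j i' j'
        have := h _ ⟨t, t', i, j, i', j', rfl⟩
        simp only [map_sub, map_mul, eval_ubf, Sum.elim_inr, Sum.elim_inl] at this
        rw [sub_eq_zero] at this
        exact this)
    (by
      intro a hc l hl h t t' i j i' j'
      rw [rval_smul_right, rval_smul_right]
      linear_combination l ^ 2 * h t t' i j i' j')
  obtain ⟨S2, hS2⟩ := elim_closed (k := k) (κ := Unit × Fin (D + 1)) (ι := Co × Fin (d + 1))
    (fun h c => ∃ a : Fin 3 × Fin (e + 1) → k, a ≠ 0 ∧ Prop1 d D e a (Sum.elim h c)) S1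
    (fun h c => hS1 (Sum.elim h c))
    (by
      rintro h c l hl ⟨a, ha, hp⟩
      refine ⟨a, ha, fun t t' i j i' j' => ?_⟩
      have := hp t t' i j i' j'
      simp only [Sum.elim_inr, Sum.elim_inl] at this ⊢
      have e1 : (fun x => (l • h) x) = l • (fun x => h x) := rfl
      rw [e1, rval_smul_left, rval_smul_left]
      linear_combination l * this)
  refine ⟨S2, fun c => ?_⟩
  rw [← hS2]
  constructor
  · rintro ⟨h, a, h1, h2, h3⟩
    have hval : ∀ t i j, bform d c (pt t) (some (i, j)) =
        rval D e (ofPoly D (fun _ => h)) (ofPoly e a) t i j := by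
      intro t i j
      rw [← toPoly_eval, h3, rval, ← toPoly_eval, ← toPoly_eval, ← toPoly_eval,
        toPoly_ofPoly D (fun _ => h) () h1, toPoly_ofPoly e a i (h2 i), toPoly_ofPoly e a j (h2 j)]
      simp
    by_cases hz : ofPoly D (fun _ : Unit => h) = 0 ∨ ofPoly e a = 0
    · refine ⟨fun _ => 1, ?_, fun _ => 1, ?_, ?_⟩
      · intro h0
        exact one_ne_zero (congrFun h0 ((), 0))
      · intro h0
        exact one_ne_zero (congrFun h0 (0, 0))
      · have hzero : ∀ t i j, bform d c (pt t) (some (i, j)) = 0 := by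
          intro t i j
          rw [hval, rval]
          rcases hz with hz | hz
          · rw [hz]; simp [bform]
          · rw [hz]; simp [bform]
        intro t t' i j i' j'
        simp only [Sum.elim_inr]
        rw [hzero, hzero]; ring
    · push Not at hz
      refine ⟨_, hz.1, _, hz.2, fun t t' i j i' j' => ?_⟩
      simp only [Sum.elim_inr, Sum.elim_inl]
      rw [hval, hval]; ring
  · rintro ⟨h, hh, a, ha, hp⟩
    obtain ⟨u, hu⟩ := exists_toPoly_ne_zero D h hh
    obtain ⟨i0, hi0⟩ := exists_toPoly_ne_zero e a ha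
    have hne : toPoly D h () * toPoly e a i0 * toPoly e a i0 ≠ 0 :=
      mul_ne_zero (mul_ne_zero hu hi0) hi0
    obtain ⟨t0, ht0⟩ : ∃ t0, (toPoly D h () * toPoly e a i0 * toPoly e a i0).eval t0 ≠ 0 := by
      by_contra hcon
      push Not at hcon
      exact hne (Polynomial.funext fun t => by rw [hcon t, Polynomial.eval_zero])
    have hr0 : rval D e h a t0 i0 i0 ≠ 0 := by
      rw [rval, ← toPoly_eval, ← toPoly_eval]
      simpa using ht0
    refine ⟨Polynomial.C (bform d c (pt t0) (some (i0, i0)) / rval D e h a t0 i0 i0) * toPoly D h (),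
      toPoly e a, (Polynomial.natDegree_C_mul_le _ _).trans (toPoly_natDegree _ _ _),
      fun i => toPoly_natDegree _ _ _, fun i j => ?_⟩
    apply Polynomial.funext
    intro t
    have h1 := hp t t0 i j i0 i0
    simp only [Sum.elim_inr, Sum.elim_inl] at h1
    rw [toPoly_eval]
    simp only [Polynomial.eval_mul, Polynomial.eval_C, toPoly_eval]
    have h2 : bform d c (pt t) (some (i, j)) * rval D e h a t0 i0 i0 =
      bform d c (pt t0) (some (i0, i0)) * (bform D h (pt t) () * bform e a (pt t) i *
        bform e a (pt t) j) := h1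
    field_simp
    linear_combination h2

lemma Wset_closed [IsAlgClosed k] {d e : ℕ} (hde : 2 * e ≤ d) : IsClosed (Wset k d e) := by
  have := isClosed_of_cone (WC_isCone d e) (WC_closed (k := k) hde)
  exact this.preimage continuous_subtype_val

end Pool.Agent.Work.MP_ab22a4_ag
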