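import Mathlib
import Pool.Agent.Work.MP_ab22a4_ag.Closed

namespace Pool.Agent.Work.MP_ab22a4_ag

open MvPolynomial

variable {k : Type*} [Field k]

/-- a squarefree polynomial of degree `D` with nonzero roots -/
noncomputable def sqf (k : Type*) [Field k] (D : ℕ) : Polynomial k :=
  ∏ i ∈ Finset.range D, (Polynomial.X - Polynomial.C ((i : k) + 1))

lemma sqf_monic (D : ℕ) : (sqf k D).Monic :=
  Polynomial.monic_prod_of_monic _ _ (fun _ _ => Polynomial.monic_X_sub_C _)

lemma sqf_natDegree (D : ℕ) : (sqf k D).natDegree = D := by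
  rw [sqf, Polynomial.natDegree_prod_of_monic _ _ (fun _ _ => Polynomial.monic_X_sub_C _)]
  simp only [Polynomial.natDegree_X_sub_C, Finset.sum_const, Finset.card_range, smul_eq_mul,
    mul_one]

lemma sqf_squarefree [CharZero k] (D : ℕ) : Squarefree (sqf k D) := by
  have : (sqf k D).Separable := by
    rw [sqf]
    apply Polynomial.separable_prod_X_sub_C_iff'.2
    intro i _ j _ h
    have : (i : k) = j := add_right_cancel h
    exact_mod_cast this
  exact this.squarefree

/-- the matrix part and last coordinate of the witness -/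
noncomputable def witPoly (k : Type*) [Field k] (d e : ℕ) : Co → Polynomial k
  | none => 1
  | some (i, j) => sqf k (d - 2 * e) * (![1, Polynomial.X ^ e, 0] : Fin 3 → Polynomial k) i *
      (![1, Polynomial.X ^ e, 0] : Fin 3 → Polynomial k) j

lemma wit_deg (e : ℕ) (i : Fin 3) :
    ((![1, Polynomial.X ^ e, 0] : Fin 3 → Polynomial k) i).natDegree ≤ e := by
  fin_cases i <;> simp

lemma witPoly_natDegree {d e : ℕ} (hde : 2 * e ≤ d) (x : Co) : (witPoly k d e x).natDegree ≤ d := by
  rcases x with _ | ⟨i, j⟩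
  · simp [witPoly]
  · simp only [witPoly]
    refine (Polynomial.natDegree_mul_le).trans ?_
    have h1 := wit_deg (k := k) e j
    have h2 := wit_deg (k := k) e i
    have h3 := sqf_natDegree (k := k) (d - 2 * e)
    have h4 := Polynomial.natDegree_mul_le (p := sqf k (d - 2 * e))
      (q := (![1, Polynomial.X ^ e, 0] : Fin 3 → Polynomial k) i)
    omega

/-- the witness -/
noncomputable def wit (k : Type*) [Field k] (d e : ℕ) : Co × Fin (d + 1) → k :=
  ofPoly d (witPoly k d e)

lemma toPoly_wit {d e : ℕ} (hde : 2 * e ≤ d) (x : Co) : toPoly d (wit k d e) x = witPoly k d e x :=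
  toPoly_ofPoly _ _ _ (witPoly_natDegree hde x)

lemma wit_mem {d e : ℕ} (hde : 2 * e ≤ d) : wit k d e ∈ WC k d e :=
  ⟨sqf k (d - 2 * e), ![1, Polynomial.X ^ e, 0], (sqf_natDegree _).le, wit_deg e,
    fun i j => by rw [toPoly_wit hde]; rfl⟩

lemma wit_nonzero {d e : ℕ} (hde : 2 * e ≤ d) (p : Fin 2 → k) (hp : p ≠ 0) :
    bform d (wit k d e) p ≠ 0 := by
  by_cases h0 : p 0 = 0
  · have h1 : p 1 ≠ 0 := by
      intro h1
      apply hp
      funext i
      fin_cases i
      · exact h0
      · exact h1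
    intro h
    have h2 := congrFun h (some (1, 1))
    rw [bform_of_eq d _ p h0, toPoly_wit hde] at h2
    have h3 : (witPoly k d e (some (1, 1))).coeff d = 1 := by
      have e1 : witPoly k d e (some (1, 1)) = sqf k (d - 2 * e) * Polynomial.X ^ e *
        Polynomial.X ^ e := rfl
      have e2 : d = (d - 2 * e) + e + e := by omega
      have := (sqf_monic (k := k) (d - 2 * e)).coeff_natDegree
      rw [sqf_natDegree] at this
      rw [e1]
      generalize sqf k (d - 2 * e) = q at this ⊢
      rw [show q.coeff (d - 2 * e) = (q * Polynomial.X ^ e * Polynomial.X ^ e).coeff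
        ((d - 2 * e) + e + e) by rw [Polynomial.coeff_mul_X_pow, Polynomial.coeff_mul_X_pow],
        ← e2] at this
      exact this
    rw [h3, one_mul] at h2
    exact pow_ne_zero _ h1 h2
  · intro h
    have h2 := congrFun h none
    rw [bform_of_ne d _ p h0, Pi.smul_apply, ← toPoly_eval, toPoly_wit hde] at h2
    simp only [witPoly, Polynomial.eval_one, smul_eq_mul, mul_one, Pi.zero_apply] at h2
    exact pow_ne_zero _ h0 h2

lemma wit_ne_zero {d e : ℕ} (hde : 2 * e ≤ d) : wit k d e ≠ 0 := by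
  intro h
  apply wit_nonzero hde (pt (0 : k)) (pt_ne_zero 0)
  rw [h]
  funext i
  simp [bform]

lemma wit_unique [CharZero k] {d e e' : ℕ} (hde : 2 * e ≤ d) (hde' : 2 * e' ≤ d)
    (h : wit k d e ∈ WC k d e') : e = e' := by
  obtain ⟨h, a, h1, h2, h3⟩ := h
  have h00 : sqf k (d - 2 * e) = h * a 0 * a 0 := by
    rw [← h3 0 0, toPoly_wit hde]
    simp [witPoly]
  have h01 : sqf k (d - 2 * e) * Polynomial.X ^ e = h * a 0 * a 1 := by
    rw [← h3 0 1, toPoly_wit hde]
    simp [witPoly]
  have hu : IsUnit (a 0) := sqf_squarefree (k := k) (d - 2 * e) (a 0) ⟨h, by rw [h00]; ring⟩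
  have ha0 : (a 0).natDegree = 0 := Polynomial.natDegree_eq_zero_of_isUnit hu
  have hs0 : sqf k (d - 2 * e) ≠ 0 := (sqf_monic _).ne_zero
  have hh0 : h ≠ 0 := by
    rintro rfl
    apply hs0
    rw [h00]; ring
  have ha00 : a 0 ≠ 0 := hu.ne_zero
  have ha1 : a 1 ≠ 0 := by
    intro h0
    rw [h0, mul_zero] at h01
    exact (mul_ne_zero hs0 (pow_ne_zero _ Polynomial.X_ne_zero)) h01
  have hd1 : d - 2 * e = h.natDegree := by
    have := congrArg Polynomial.natDegree h00
    rw [sqf_natDegree, Polynomial.natDegree_mul (mul_ne_zero hh0 ha00) ha00,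
      Polynomial.natDegree_mul hh0 ha00, ha0] at this
    omega
  have hd2 : d - 2 * e + e = h.natDegree + (a 1).natDegree := by
    have := congrArg Polynomial.natDegree h01
    rw [Polynomial.natDegree_mul hs0 (pow_ne_zero _ Polynomial.X_ne_zero), sqf_natDegree,
      Polynomial.natDegree_mul (mul_ne_zero hh0 ha00) ha1, Polynomial.natDegree_mul hh0 ha00, ha0,
      Polynomial.natDegree_X_pow] at this
    omega
  have := h2 1
  omega

/-- the witness as a morphism -/
noncomputable def witMor (k : Type*) [Field k] [IsAlgClosed k] {d e : ℕ} (hde : 2 * e ≤ d) :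
    Mor d (W k) :=
  ⟨Projectivization.mk k _ (wit_ne_zero hde), mk_mem_Mor_of_WC hde (wit_mem hde) _ (wit_nonzero hde)⟩

lemma witMor_mem_iff [IsAlgClosed k] {d e : ℕ} (hde : 2 * e ≤ d) (e' : ℕ) :
    witMor k hde ∈ Wset k d e' ↔ wit k d e ∈ WC k d e' :=
  (WC_isCone d e').rep_mk_mem _ _

lemma Wset_irreducible [IsAlgClosed k] {d e : ℕ} (hde : 2 * e ≤ d) : IsIrreducible (Wset k d e) :=
  ⟨⟨witMor k hde, (witMor_mem_iff hde e).2 (wit_mem hde)⟩, Wset_preirreducible hde⟩

lemma Wset_subset_iff [IsAlgClosed k] [CharZero k] {d e e' : ℕ} (hde : 2 * e ≤ d)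
    (hde' : 2 * e' ≤ d) : Wset k d e ⊆ Wset k d e' ↔ e = e' := by
  refine ⟨fun h => ?_, fun h => by rw [h]⟩
  exact wit_unique hde hde' ((witMor_mem_iff hde e').1 (h ((witMor_mem_iff hde e).2 (wit_mem hde))))

lemma irreducible_subset [IsAlgClosed k] {d : ℕ} {T : Set (Mor d (W k))} (hT : IsIrreducible T) :
    ∃ e, 2 * e ≤ d ∧ T ⊆ Wset k d e := by
  classical
  rw [isIrreducible_iff_sUnion_isClosed] at hT
  obtain ⟨Z, hZ, hTZ⟩ := hT ((Finset.range (d / 2 + 1)).image (fun e => Wset k d e))
    (by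
      intro Z hZ
      rw [Finset.mem_image] at hZ
      obtain ⟨e, he, rfl⟩ := hZ
      rw [Finset.mem_range] at he
      exact Wset_closed (by omega))
    (by
      intro g _
      obtain ⟨e, he, hg⟩ := Wset_cover d g
      rw [Set.mem_sUnion]
      refine ⟨Wset k d e, ?_, hg⟩
      rw [Finset.mem_coe, Finset.mem_image]
      exact ⟨e, by rw [Finset.mem_range]; omega, rfl⟩)
  rw [Finset.mem_image] at hZ
  obtain ⟨e, he, rfl⟩ := hZ
  rw [Finset.mem_range] at he
  exact ⟨e, by omega, hTZ⟩

theorem irreducibleComponents_eq (k : Type*) [Field k] [IsAlgClosed k] [CharZero k] (d : ℕ) :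
    irreducibleComponents (Mor d (W k)) = (fun e => Wset k d e) '' (Set.Iic (d / 2)) := by
  ext T
  constructor
  · intro hT
    obtain ⟨e, he, hTe⟩ := irreducible_subset hT.1
    refine ⟨e, by rw [Set.mem_Iic]; omega, ?_⟩
    exact Set.Subset.antisymm (hT.2 (Wset_irreducible he) hTe) hTe
  · rintro ⟨e, he, rfl⟩
    rw [Set.mem_Iic] at he
    have he' : 2 * e ≤ d := by omega
    refine ⟨Wset_irreducible he', fun T hT hle => ?_⟩
    obtain ⟨e1, he1, hTe1⟩ := irreducible_subset hT
    have : e = e1 := (Wset_subset_iff he' he1).1 (hle.trans hTe1)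
    rw [this]
    exact hTe1

theorem ncard_components (k : Type*) [Field k] [IsAlgClosed k] [CharZero k] (d : ℕ) :
    (irreducibleComponents (Mor d (W k))).ncard = d / 2 + 1 := by
  have hinj : Set.InjOn (fun e => Wset k d e) (Set.Iic (d / 2)) := by
    intro e he e' he' h
    rw [Set.mem_Iic] at he he'
    exact (Wset_subset_iff (by omega) (by omega)).1 (Set.Subset.antisymm_iff.1 h).1
  rw [irreducibleComponents_eq, hinj.ncard_image, Set.ncard_eq_toFinset_card']
  simp

end Pool.Agent.Work.MP_ab22a4_ag
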