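import Mathlib
import Pool.Agent.Work.MP_ab22a4_ag.Count
import Pool.Agent.Work.MP_ab22a4_ag.Root

namespace Pool.Agent.Work.MP_ab22a4_ag

open MvPolynomial

variable {k : Type*} [Field k] {σ τ : Type*}

/-- coefficient vectors of degree `d` which lift, up to a common factor, to the source of `f` -/
def LC {J : Ideal (MvPolynomial τ k)} {Z : Set (PS k σ)} (f : pts J → Z) (d' d : ℕ) :
    Set (σ × Fin (d + 1) → k) :=
  {c | ∃ c' : τ × Fin (d' + 1) → k, c' ≠ 0 ∧
    ((∀ t : k, ∀ F ∈ J, eval (bform d' c' (pt t)) F = 0) ∧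
    ∀ m G, IsRep f m G → ∀ t i j, eval (bform d' c' (pt t)) (G i) * bform d c (pt t) j =
      eval (bform d' c' (pt t)) (G j) * bform d c (pt t) i)}

lemma eval_smul_of_homog {J : Ideal (MvPolynomial τ k)} (hJ : IsHomog J) (w : τ → k)
    (h : ∀ F ∈ J, eval w F = 0) (l : k) : ∀ F ∈ J, eval (l • w) F = 0 := by
  intro F hF
  rw [← MvPolynomial.sum_homogeneousComponent F, map_sum]
  apply Finset.sum_eq_zero
  intro n _
  rw [homog_eval_smul (homogeneousComponent_isHomogeneous n F), h _ (hJ F hF n), mul_zero]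

lemma LC_isCone {J : Ideal (MvPolynomial τ k)} {Z : Set (PS k σ)} (f : pts J → Z) (d' d : ℕ) :
    IsCone (LC f d' d) := by
  rintro l c hl ⟨c', h0, h1, h2⟩
  refine ⟨c', h0, h1, fun m G hG t i j => ?_⟩
  rw [bform_smul, Pi.smul_apply, Pi.smul_apply, smul_eq_mul, smul_eq_mul]
  linear_combination l * h2 m G hG t i j

lemma eval_bind_ubf {ι : Type*} (d : ℕ) (φ : τ × Fin (d + 1) → ι) (p : Fin 2 → k) (v : ι → k)
    (F : MvPolynomial τ k) :
    eval v (bind₁ (fun l => ubf d φ p l) F) = eval (bform d (fun x => v (φ x)) p) F := by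
  have : (eval v).comp (bind₁ (fun l => ubf d φ p l)).toRingHom =
      eval (bform d (fun x => v (φ x)) p) := by
    apply MvPolynomial.ringHom_ext
    · intro a; simp
    · intro x
      simp [eval_ubf]
  exact RingHom.congr_fun this F

theorem LC_closed [IsAlgClosed k] [Finite τ] {J : Ideal (MvPolynomial τ k)} (hJ : IsHomog J)
    {Z : Set (PS k σ)} (f : pts J → Z) (d' d : ℕ) : ZClosed (LC f d' d) := by
  apply elim_closed (k := k) (κ := τ × Fin (d' + 1)) (ι := σ × Fin (d + 1))
    (fun c' c => (∀ t : k, ∀ F ∈ J, eval (bform d' c' (pt t)) F = 0) ∧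
      ∀ m G, IsRep f m G → ∀ t i j, eval (bform d' c' (pt t)) (G i) * bform d c (pt t) j =
        eval (bform d' c' (pt t)) (G j) * bform d c (pt t) i)
    ({H | ∃ t : k, ∃ F ∈ J, H = bind₁ (fun l => ubf d' Sum.inl (pt t) l) F} ∪
      {H | ∃ m G, IsRep f m G ∧ ∃ t i j,
        H = bind₁ (fun l => ubf d' Sum.inl (pt t) l) (G i) * ubf d Sum.inr (pt t) j -
          bind₁ (fun l => ubf d' Sum.inl (pt t) l) (G j) * ubf d Sum.inr (pt t) i})
  · intro c' c
    constructor
    · rintro ⟨h1, h2⟩ H (⟨t, F, hF, rfl⟩ | ⟨m, G, hG, t, i, j, rfl⟩)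
      · rw [eval_bind_ubf]
        exact h1 t F hF
      · rw [map_sub, map_mul, map_mul, eval_bind_ubf, eval_bind_ubf, eval_ubf, eval_ubf,
          sub_eq_zero]
        exact h2 m G hG t i j
    · intro h
      refine ⟨fun t F hF => ?_, fun m G hG t i j => ?_⟩
      · have := h _ (Or.inl ⟨t, F, hF, rfl⟩)
        rw [eval_bind_ubf] at this
        exact this
      · have := h _ (Or.inr ⟨m, G, hG, t, i, j, rfl⟩)
        rw [map_sub, map_mul, map_mul, eval_bind_ubf, eval_bind_ubf, eval_ubf, eval_ubf,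
          sub_eq_zero] at this
        exact this
  · rintro c' c l hl ⟨h1, h2⟩
    refine ⟨fun t F hF => ?_, fun m G hG t i j => ?_⟩
    · rw [bform_smul]
      exact eval_smul_of_homog hJ _ (h1 t) l F hF
    · rw [bform_smul, homog_eval_smul (hG.1 i), homog_eval_smul (hG.1 j)]
      linear_combination l ^ m * h2 m G hG t i j

lemma mk_eq_cross {ι : Type*} (v w : ι → k) (hv : v ≠ 0) (hw : w ≠ 0)
    (h : Projectivization.mk k v hv = Projectivization.mk k w hw) (i j : ι) :
    v i * w j = v j * w i := by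
  rw [Projectivization.mk_eq_mk_iff'] at h
  obtain ⟨a, ha⟩ := h
  rw [← ha]
  simp only [Pi.smul_apply, smul_eq_mul]
  ring

lemma mk_eq_of_cross {ι : Type*} (v w : ι → k) (hv : v ≠ 0) (hw : w ≠ 0)
    (h : ∀ i j, v i * w j = v j * w i) :
    Projectivization.mk k v hv = Projectivization.mk k w hw := by
  rw [Projectivization.mk_eq_mk_iff']
  obtain ⟨j, hj⟩ : ∃ j, w j ≠ 0 := by
    by_contra hcon
    push Not at hcon
    exact hw (funext hcon)
  refine ⟨v j / w j, ?_⟩
  funext i
  rw [Pi.smul_apply, smul_eq_mul, div_mul_eq_mul_div, div_eq_iff hj]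
  exact (h i j).symm

/-- the value of a morphism at an affine point -/
lemma val_mk {d : ℕ} {Z : Set (PS k σ)} (g : Mor d Z) (p : Fin 2 → k) (hp : p ≠ 0) :
    (val g (Projectivization.mk k p hp)).1 =
      Projectivization.mk k (bform d g.1.rep p) (g.2 p hp).1 := by
  obtain ⟨l, hl, hr⟩ := exists_rep_mk p hp
  rw [val, Projectivization.mk_eq_mk_iff']
  refine ⟨l ^ d, ?_⟩
  rw [hr, bform_homog]

lemma cone_of_pts {J : Ideal (MvPolynomial τ k)} (hJ : IsHomog J) (v : τ → k) (hv : v ≠ 0)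
    (h : Projectivization.mk k v hv ∈ pts J) : ∀ F ∈ J, eval v F = 0 := by
  obtain ⟨l, hl, hr⟩ := exists_rep_mk v hv
  have h1 : ∀ F ∈ J, eval (Projectivization.mk k v hv).rep F = 0 := h
  rw [hr] at h1
  have h2 := eval_smul_of_homog hJ (l • v) h1 l⁻¹
  rwa [smul_smul, inv_mul_cancel₀ hl, one_smul] at h2

lemma pts_of_cone {J : Ideal (MvPolynomial τ k)} (hJ : IsHomog J) (v : τ → k) (hv : v ≠ 0)
    (h : ∀ F ∈ J, eval v F = 0) : Projectivization.mk k v hv ∈ pts J := by
  obtain ⟨l, hl, hr⟩ := exists_rep_mk v hv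
  intro F hF
  rw [hr]
  exact eval_smul_of_homog hJ v h l F hF

/-- representatives evaluated on arbitrary homogeneous coordinates -/
lemma rep_apply {J : Ideal (MvPolynomial τ k)} {Z : Set (PS k σ)} {f : pts J → Z} {m : ℕ}
    {G : σ → MvPolynomial τ k} (hG : IsRep f m G) (v : τ → k) (hv : v ≠ 0)
    (hm : Projectivization.mk k v hv ∈ pts J) (h : (fun i => eval v (G i)) ≠ 0) :
    (f ⟨Projectivization.mk k v hv, hm⟩).1 = Projectivization.mk k _ h := by
  obtain ⟨l, hl, hr⟩ := exists_rep_mk v hv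
  have e : (fun i => eval (Projectivization.mk k v hv).rep (G i)) =
      l ^ m • (fun i => eval v (G i)) := by
    funext i
    rw [hr, homog_eval_smul (hG.1 i)]
    rfl
  have h2 : (fun i => eval (Projectivization.mk k v hv).rep (G i)) ≠ 0 := by
    rw [e]
    exact smul_ne_zero (pow_ne_zero _ hl) h
  rw [hG.2 ⟨Projectivization.mk k v hv, hm⟩ h2, Projectivization.mk_eq_mk_iff']
  exact ⟨l ^ m, e.symm⟩

lemma push_subset {J : Ideal (MvPolynomial τ k)} (hJ : IsHomog J) {Z : Set (PS k σ)}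
    (f : pts J → Z) {d' : ℕ} (N : Set (Mor d' (pts J))) (d : ℕ) :
    push f N d ⊆ {g | g.1.rep ∈ LC f d' d} := by
  rintro c ⟨g, hgN, hg⟩
  refine ⟨g.1.rep, g.1.rep_nonzero, fun t => ?_, fun m G hG t i j => ?_⟩
  · obtain ⟨h1, h2⟩ := g.2 (pt t) (pt_ne_zero t)
    exact cone_of_pts hJ _ h1 h2
  · obtain ⟨h1, h2⟩ := g.2 (pt t) (pt_ne_zero t)
    by_cases hz : (fun i => eval (bform d' g.1.rep (pt t)) (G i)) = 0
    · have e1 := congrFun hz i
      have e2 := congrFun hz j
      simp only [Pi.zero_apply] at e1 e2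
      rw [e1, e2]; ring
    · have e1 := rep_apply hG _ h1 h2 hz
      have e2 := hg (Projectivization.mk k (pt t) (pt_ne_zero t))
      have e3 : val g (Projectivization.mk k (pt t) (pt_ne_zero t)) =
          ⟨Projectivization.mk k _ h1, h2⟩ := Subtype.ext (val_mk g (pt t) (pt_ne_zero t))
      rw [e3] at e2
      rw [← e2, val_mk] at e1
      have := mk_eq_cross _ _ _ _ e1 j i
      linear_combination this

lemma mem_LC_of_closure [IsAlgClosed k] [Finite τ] {J : Ideal (MvPolynomial τ k)} (hJ : IsHomog J)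
    {Z : Set (PS k σ)} (f : pts J → Z) {d' : ℕ} (N : Set (Mor d' (pts J))) (d : ℕ)
    (g : Mor d Z) (hg : g ∈ closure (push f N d)) : g.1.rep ∈ LC f d' d := by
  have hcl : IsClosed {g : Mor d Z | g.1.rep ∈ LC f d' d} :=
    (isClosed_of_cone (LC_isCone f d' d) (LC_closed hJ f d' d)).preimage continuous_subtype_val
  exact closure_minimal (push_subset hJ f N d) hcl hg

/-- the coordinates of the point of the weighted space with affine coordinates `g` -/
def coPoly {R : Type*} [CommRing R] (g : Fin 3 → R) : Co → R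
  | none => g 2
  | some (i, j) => (![1, g 0, g 1] : Fin 3 → R) i * (![1, g 0, g 1] : Fin 3 → R) j

/-- the higher order part of the arcs -/
noncomputable def rho (k : Type*) [Field k] (d : ℕ) : Fin 3 → Polynomial k := ![0, 0, Polynomial.X ^ d]

/-- all arcs of the family lift to the source of `f` -/
def LiftHyp {J : Ideal (MvPolynomial τ k)} (f : pts J → W k) (d : ℕ) : Prop :=
  ∀ x0 c0 : Fin 3 → k, ∃ y : τ → Polynomial k, (∃ l, y l ≠ 0) ∧ (∀ F ∈ J, aeval y F = 0) ∧
    ∀ m G, IsRep f m G → ∀ i j, aeval y (G i) * coPoly (arc x0 (rho k d) c0) j =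
      aeval y (G j) * coPoly (arc x0 (rho k d) c0) i

lemma arc_deg (d : ℕ) (hd : 1 ≤ d) (x0 c0 : Fin 3 → k) (i : Fin 3) :
    (arc x0 (rho k d) c0 i).natDegree ≤ d := by
  unfold arc
  refine (Polynomial.natDegree_add_le _ _).trans (max_le ?_ ?_)
  · refine (Polynomial.natDegree_add_le _ _).trans (max_le ?_ ?_)
    · simp
    · exact ((Polynomial.natDegree_C_mul_le _ _).trans Polynomial.natDegree_X_le).trans hd
  · fin_cases i <;> simp [rho]

lemma arc_deg_one (d : ℕ) (x0 c0 : Fin 3 → k) (i : Fin 3) :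
    ((![1, arc x0 (rho k d) c0 0, arc x0 (rho k d) c0 1] : Fin 3 → Polynomial k) i).natDegree ≤
      1 := by
  have h : ∀ a b : k, (Polynomial.C a + Polynomial.C b * Polynomial.X).natDegree ≤ 1 := by
    intro a b
    refine (Polynomial.natDegree_add_le _ _).trans (max_le ?_ ?_)
    · simp
    · exact (Polynomial.natDegree_C_mul_le _ _).trans Polynomial.natDegree_X_le
  fin_cases i
  · simp
  · simpa [arc, rho] using h (x0 0) (c0 0)
  · simpa [arc, rho] using h (x0 1) (c0 1)

lemma coPoly_deg {d : ℕ} (hd : 2 ≤ d) (x0 c0 : Fin 3 → k) (x : Co) :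
    (coPoly (arc x0 (rho k d) c0) x).natDegree ≤ d := by
  rcases x with _ | ⟨i, j⟩
  · exact arc_deg d (by omega) x0 c0 2
  · refine (Polynomial.natDegree_mul_le).trans ?_
    have h1 := arc_deg_one d x0 c0 i
    have h2 := arc_deg_one d x0 c0 j
    omega

lemma fam_mem {d e : ℕ} (he : 1 ≤ e) (hde : 2 * e ≤ d) (x0 c0 : Fin 3 → k) :
    ofPoly d (coPoly (arc x0 (rho k d) c0)) ∈ WC k d e := by
  refine ⟨1, ![1, arc x0 (rho k d) c0 0, arc x0 (rho k d) c0 1], by simp,
    fun i => (arc_deg_one d x0 c0 i).trans he, fun i j => ?_⟩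
  rw [toPoly_ofPoly _ _ _ (coPoly_deg (by omega) x0 c0 _)]
  simp [coPoly]

lemma fam_nonzero {d : ℕ} (hd : 2 ≤ d) (x0 c0 : Fin 3 → k) (p : Fin 2 → k) (hp : p ≠ 0) :
    bform d (ofPoly d (coPoly (arc x0 (rho k d) c0))) p ≠ 0 := by
  by_cases h0 : p 0 = 0
  · have h1 : p 1 ≠ 0 := by
      intro h1
      apply hp
      funext i
      fin_cases i
      · exact h0
      · exact h1
    intro h
    have h2 := congrFun h none
    rw [bform_of_eq d _ p h0, toPoly_ofPoly _ _ _ (coPoly_deg hd x0 c0 _)] at h2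
    have h3 : (coPoly (arc x0 (rho k d) c0) none).coeff d = 1 := by
      have e1 : d ≠ 0 := by omega
      have e2 : d ≠ 1 := by omega
      simp [coPoly, arc, rho, Polynomial.coeff_C, Polynomial.coeff_X, e1, Ne.symm e2]
    rw [h3, one_mul] at h2
    exact pow_ne_zero _ h1 h2
  · intro h
    have h2 := congrFun h (some (0, 0))
    rw [bform_of_ne d _ p h0, Pi.smul_apply, ← toPoly_eval,
      toPoly_ofPoly _ _ _ (coPoly_deg hd x0 c0 _)] at h2
    simp only [coPoly, Matrix.cons_val_zero, mul_one, Polynomial.eval_one, smul_eq_mul,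
      Pi.zero_apply] at h2
    exact pow_ne_zero _ h0 h2

lemma eval_aeval_poly (y : τ → Polynomial k) (F : MvPolynomial τ k) (t : k) :
    (aeval y F).eval t = eval (fun l => (y l).eval t) F := by
  have : (Polynomial.evalRingHom t).comp (aeval y).toRingHom = eval (fun l => (y l).eval t) := by
    apply MvPolynomial.ringHom_ext
    · intro a
      simp only [RingHom.comp_apply, AlgHom.toRingHom_eq_coe, RingHom.coe_coe, eval_C]
      rw [← MvPolynomial.algebraMap_eq, AlgHom.commutes]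
      simp
    · intro x
      simp
  exact RingHom.congr_fun this F

theorem liftHyp_of_dominated [IsAlgClosed k] [Finite τ] {J : Ideal (MvPolynomial τ k)}
    (hJ : IsHomog J) (f : pts J → W k) {d' : ℕ} (N : Set (Mor d' (pts J))) {d e : ℕ} (he : 1 ≤ e)
    (hde : 2 * e ≤ d) (h : Wset k d e ⊆ closure (push f N d)) : LiftHyp f d := by
  intro x0 c0
  have hd : 2 ≤ d := by omega
  have hne := fam_nonzero hd x0 c0
  set c := ofPoly d (coPoly (arc x0 (rho k d) c0)) with hc
  have hc0 : c ≠ 0 := by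
    intro h0
    apply hne (pt (0 : k)) (pt_ne_zero 0)
    rw [h0]
    funext i
    simp [bform]
  have hcW : c ∈ WC k d e := fam_mem he hde x0 c0
  let g : Mor d (W k) := ⟨Projectivization.mk k c hc0, mk_mem_Mor_of_WC hde hcW hc0 hne⟩
  have hg : g ∈ Wset k d e := ((WC_isCone d e).rep_mk_mem _ hc0).2 hcW
  have h1 := mem_LC_of_closure hJ f N d g (h hg)
  have h2 : c ∈ LC f d' d := ((LC_isCone f d' d).rep_mk_mem _ hc0).1 h1
  obtain ⟨c', h3, h4, h5⟩ := h2
  have hval : ∀ t, (fun l => (toPoly d' c' l).eval t) = bform d' c' (pt t) := by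
    intro t
    funext l
    rw [toPoly_eval]
  refine ⟨toPoly d' c', exists_toPoly_ne_zero d' c' h3, fun F hF => ?_, fun m G hG i j => ?_⟩
  · apply Polynomial.funext
    intro t
    rw [eval_aeval_poly, hval, h4 t F hF, Polynomial.eval_zero]
  · apply Polynomial.funext
    intro t
    rw [Polynomial.eval_mul, Polynomial.eval_mul, eval_aeval_poly, eval_aeval_poly, hval]
    have := h5 m G hG t i j
    rw [← toPoly_eval, ← toPoly_eval, hc, toPoly_ofPoly _ _ _ (coPoly_deg hd x0 c0 _),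
      toPoly_ofPoly _ _ _ (coPoly_deg hd x0 c0 _)] at this
    exact this

end Pool.Agent.Work.MP_ab22a4_ag
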