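import Mathlib
import Pool.Agent.Work.MP_ab22a4_ag.AlgTwo
import Pool.Agent.Work.MP_ab22a4_ag.Lift

namespace Pool.Agent.Work.MP_ab22a4_ag

open MvPolynomial

variable {k : Type*} [Field k] {τ : Type*}

/-- the projective Nullstellensatz -/
lemma mem_of_vanish [IsAlgClosed k] [Finite τ] {J : Ideal (MvPolynomial τ k)} [J.IsPrime] {n : ℕ}
    {D : MvPolynomial τ k} (hD : D.IsHomogeneous n)
    (h : ∀ v : τ → k, v ≠ 0 → (∀ F ∈ J, eval v F = 0) → eval v D = 0)
    (hne : ∃ v : τ → k, v ≠ 0 ∧ ∀ F ∈ J, eval v F = 0) : D ∈ J := by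
  rw [← MvPolynomial.IsPrime.vanishingIdeal_zeroLocus (K := k) J]
  intro v hv
  have hv' : ∀ F ∈ J, eval v F = 0 := by
    intro F hF
    have := hv F hF
    rwa [MvPolynomial.aeval_eq_eval] at this
  rw [MvPolynomial.aeval_eq_eval]
  by_cases h0 : v = 0
  · obtain ⟨w, hw0, hw⟩ := hne
    have := homog_eval_smul hD 0 w
    rw [h w hw0 hw, mul_zero, zero_smul] at this
    rw [h0]
    exact this
  · exact h v h0 hv'

variable {J : Ideal (MvPolynomial τ k)} {σ : Type*}

lemma rep_compat [IsAlgClosed k] [Finite τ] [J.IsPrime] (hJ : IsHomog J) {Z : Set (PS k σ)}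
    {f : pts J → Z} {m m' : ℕ} {G G' : σ → MvPolynomial τ k} (hG : IsRep f m G)
    (hG' : IsRep f m' G') (hne : ∃ v : τ → k, v ≠ 0 ∧ ∀ F ∈ J, eval v F = 0) (i j : σ) :
    G i * G' j - G j * G' i ∈ J := by
  apply mem_of_vanish (n := m + m') _ _ hne
  · exact ((hG.1 i).mul (hG'.1 j)).sub ((hG.1 j).mul (hG'.1 i))
  · intro v hv hvJ
    have hm := pts_of_cone hJ v hv hvJ
    rw [map_sub, map_mul, map_mul]
    by_cases h1 : (fun i => eval v (G i)) = 0
    · have e1 := congrFun h1 i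
      have e2 := congrFun h1 j
      simp only [Pi.zero_apply] at e1 e2
      rw [e1, e2]; ring
    by_cases h2 : (fun i => eval v (G' i)) = 0
    · have e1 := congrFun h2 i
      have e2 := congrFun h2 j
      simp only [Pi.zero_apply] at e1 e2
      rw [e1, e2]; ring
    have e1 := rep_apply hG v hv hm h1
    have e2 := rep_apply hG' v hv hm h2
    rw [e1] at e2
    have := mk_eq_cross _ _ _ _ e2 i j
    linear_combination this

lemma rep_rank [IsAlgClosed k] [Finite τ] [J.IsPrime] (hJ : IsHomog J)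
    {f : pts J → W k} {m : ℕ} {G : Co → MvPolynomial τ k} (hG : IsRep f m G)
    (hne : ∃ v : τ → k, v ≠ 0 ∧ ∀ F ∈ J, eval v F = 0) (i j : Fin 3) :
    G (some (0, 0)) * G (some (i, j)) - G (some (0, i)) * G (some (0, j)) ∈ J := by
  apply mem_of_vanish (n := m + m) _ _ hne
  · exact ((hG.1 _).mul (hG.1 _)).sub ((hG.1 _).mul (hG.1 _))
  · intro v hv hvJ
    have hm := pts_of_cone hJ v hv hvJ
    rw [map_sub, map_mul, map_mul]
    by_cases h1 : (fun i => eval v (G i)) = 0
    · have e1 := congrFun h1 (some (0, 0))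
      have e2 := congrFun h1 (some (0, i))
      simp only [Pi.zero_apply] at e1 e2
      rw [e1, e2]; ring
    have e1 := rep_apply hG v hv hm h1
    have e2 := (f ⟨_, hm⟩).2
    rw [e1, mk_mem_W] at e2
    obtain ⟨l, b, hb⟩ := e2
    simp only at hb
    rw [hb, hb, hb, hb]; ring

/-- lifts of an arc -/
def IsLift (f : pts J → W k) (d : ℕ) (x0 c0 : Fin 3 → k) (y : τ → Polynomial k) : Prop :=
  (∃ l, y l ≠ 0) ∧ (∀ F ∈ J, aeval y F = 0) ∧
    ∃ m G, IsRep f m G ∧ aeval y (G (some (0, 0))) ≠ 0 ∧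
      ∀ i, aeval y (G i) = aeval y (G (some (0, 0))) * coPoly (arc x0 (rho k d) c0) i

lemma exists_cone_point [Infinite k] (y : τ → Polynomial k) (hy : ∃ l, y l ≠ 0)
    (hJ : ∀ F ∈ J, aeval y F = 0) : ∃ t : k, (fun l => (y l).eval t) ≠ 0 ∧
      ∀ F ∈ J, eval (fun l => (y l).eval t) F = 0 := by
  obtain ⟨l, hl⟩ := hy
  obtain ⟨t, ht⟩ : ∃ t, (y l).eval t ≠ 0 := by
    by_contra hcon
    push Not at hcon
    exact hl (Polynomial.funext fun t => by rw [hcon t, Polynomial.eval_zero])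
  refine ⟨t, fun h => ht (congrFun h l), fun F hF => ?_⟩
  rw [← eval_aeval_poly, hJ F hF, Polynomial.eval_zero]

lemma exists_lift [IsAlgClosed k] (hJ : IsHomog J) {f : pts J → W k} (hf : IsMorphism f) {d : ℕ}
    (hl : LiftHyp f d) (x0 c0 : Fin 3 → k) : ∃ y, IsLift f d x0 c0 y := by
  have : Infinite k := inferInstance
  obtain ⟨y, hy, hyJ, hyG⟩ := hl x0 c0
  refine ⟨y, hy, hyJ, ?_⟩
  obtain ⟨t, ht0, htJ⟩ := exists_cone_point y hy hyJ
  have hm := pts_of_cone hJ _ ht0 htJ
  obtain ⟨m, G, hG, hne⟩ := hf ⟨_, hm⟩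
  have hne2 : ∃ i, aeval y (G i) ≠ 0 := by
    by_contra hcon
    push Not at hcon
    apply hne
    funext i
    obtain ⟨l, hl, hr⟩ := exists_rep_mk _ ht0
    simp only
    rw [hr, homog_eval_smul (hG.1 i), ← eval_aeval_poly, hcon i]
    simp
  obtain ⟨i, hi⟩ := hne2
  have h00 : ∀ i, aeval y (G i) = aeval y (G (some (0, 0))) * coPoly (arc x0 (rho k d) c0) i := by
    intro i
    have := hyG m G hG i (some (0, 0))
    have e : coPoly (arc x0 (rho k d) c0) (some (0, 0)) = 1 := by simp [coPoly]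
    rw [e, mul_one] at this
    exact this
  refine ⟨m, G, hG, ?_, h00⟩
  intro h0
  apply hi
  rw [h00 i, h0, zero_mul]

/-- the homomorphism from the coordinate ring attached to a lift -/
noncomputable def liftHom (y : τ → Polynomial k) (hyJ : ∀ F ∈ J, aeval y F = 0) :
    (MvPolynomial τ k ⧸ J) →ₐ[k] Polynomial k :=
  Ideal.Quotient.liftₐ J (aeval y) hyJ

lemma liftHom_mk (y : τ → Polynomial k) (hyJ : ∀ F ∈ J, aeval y F = 0) (F : MvPolynomial τ k) :
    liftHom y hyJ (Ideal.Quotient.mk J F) = aeval y F := rfl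

/-- indices of the affine coordinates -/
def ix : Fin 3 → Co := ![some (0, 1), some (0, 2), none]

lemma coPoly_ix {R : Type*} [CommRing R] (g : Fin 3 → R) (i : Fin 3) : coPoly g (ix i) = g i := by
  fin_cases i <;> simp [ix, coPoly]

/-- the rational functions on the source which are the pullbacks of the affine coordinates -/
noncomputable def uK (J : Ideal (MvPolynomial τ k)) [J.IsPrime] (G : Co → MvPolynomial τ k)
    (i : Fin 3) : FractionRing (MvPolynomial τ k ⧸ J) :=
  ratio J (G (ix i)) (G (some (0, 0)))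

lemma mk_ne_zero_of {J : Ideal (MvPolynomial τ k)} [J.IsPrime] {F : MvPolynomial τ k}
    (h : F ∉ J) : algebraMap (MvPolynomial τ k ⧸ J) (FractionRing (MvPolynomial τ k ⧸ J))
      (Ideal.Quotient.mk J F) ≠ 0 := by
  intro h0
  apply h
  rw [← Ideal.Quotient.eq_zero_iff_mem]
  exact IsFractionRing.injective _ (FractionRing (MvPolynomial τ k ⧸ J)) (by rw [h0, map_zero])

lemma ratio_mul {J : Ideal (MvPolynomial τ k)} [J.IsPrime] (a : MvPolynomial τ k)
    {b : MvPolynomial τ k} (h : b ∉ J) :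
    ratio J a b * algebraMap (MvPolynomial τ k ⧸ J) _ (Ideal.Quotient.mk J b) =
      algebraMap (MvPolynomial τ k ⧸ J) _ (Ideal.Quotient.mk J a) :=
  div_mul_cancel₀ _ (mk_ne_zero_of h)

lemma ratio_eq {J : Ideal (MvPolynomial τ k)} [J.IsPrime] {a b a' b' : MvPolynomial τ k}
    (h : b ∉ J) (h' : b' ∉ J) (he : a * b' - b * a' ∈ J) : ratio J a b = ratio J a' b' := by
  rw [ratio, ratio, div_eq_div_iff (mk_ne_zero_of h) (mk_ne_zero_of h'), ← map_mul, ← map_mul,
    ← map_mul, ← map_mul]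
  congr 1
  rw [← sub_eq_zero, ← map_sub, Ideal.Quotient.eq_zero_iff_mem]
  have : a * b' - a' * b = a * b' - b * a' := by ring
  rw [this]; exact he

lemma not_mem_of_lift {y : τ → Polynomial k} (hyJ : ∀ F ∈ J, aeval y F = 0)
    {F : MvPolynomial τ k} (h : aeval y F ≠ 0) : F ∉ J := fun hF => h (hyJ F hF)

/-- the affine coordinates are related to the components of the arc -/
lemma rel_u [IsAlgClosed k] [Finite τ] [J.IsPrime] (hJ : IsHomog J) {f : pts J → W k}
    {m0 : ℕ} {G0 : Co → MvPolynomial τ k} (hG0 : IsRep f m0 G0) (hG00 : G0 (some (0, 0)) ∉ J)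
    {d : ℕ} {x0 c0 : Fin 3 → k} {y : τ → Polynomial k} (hy : IsLift f d x0 c0 y) (i : Fin 3) :
    (uK J G0 i, algebraMap (Polynomial k) (FractionRing (Polynomial k))
      (arc x0 (rho k d) c0 i)) ∈ relAlg (liftHom y hy.2.1) := by
  have : Infinite k := inferInstance
  obtain ⟨h1, h2, m, G, hG, hG00', hGi⟩ := hy
  obtain ⟨t, ht0, htJ⟩ := exists_cone_point y h1 h2
  have hn : G (some (0, 0)) ∉ J := not_mem_of_lift h2 hG00'
  refine ⟨Ideal.Quotient.mk J (G (ix i)), Ideal.Quotient.mk J (G (some (0, 0))), ?_, ?_, ?_⟩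
  · rw [liftHom_mk]; exact hG00'
  · have : uK J G0 i = ratio J (G (ix i)) (G (some (0, 0))) := by
      apply ratio_eq hG00 hn
      exact rep_compat hJ hG0 hG ⟨_, ht0, htJ⟩ _ _
    simp only
    rw [this, ratio_mul _ hn]
  · simp only
    rw [liftHom_mk, liftHom_mk, hGi (ix i), coPoly_ix, map_mul, mul_comm]

lemma rho_zero {d : ℕ} (hd : 1 ≤ d) (i : Fin 3) : (rho k d i).eval 0 = 0 := by
  have : d ≠ 0 := by omega
  fin_cases i <;> simp [rho, this]

lemma eval_arc_zero {d : ℕ} (hd : 1 ≤ d) (x0 c0 : Fin 3 → k) (F : MvPolynomial (Fin 3) k) :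
    (aeval (arc x0 (rho k d) c0) F).eval 0 = eval x0 F := by
  rw [eval_aeval_poly]
  congr 1
  congr 1
  funext i
  simp [arc, rho_zero hd]

lemma aeval_algebraMap_comp (y : τ → Polynomial k) :
    (aeval (R := k) (fun i => algebraMap (Polynomial k) (FractionRing (Polynomial k)) (y i))).toRingHom =
    (algebraMap (Polynomial k) (FractionRing (Polynomial k))).comp (aeval y).toRingHom := by
  apply MvPolynomial.ringHom_ext
  · intro a
    simp only [RingHom.comp_apply, AlgHom.toRingHom_eq_coe, RingHom.coe_coe]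
    rw [← MvPolynomial.algebraMap_eq, AlgHom.commutes, AlgHom.commutes,
      ← IsScalarTower.algebraMap_apply]
  · intro x
    simp

/-- the pullbacks of the affine coordinates are algebraically independent -/
lemma u_injective [IsAlgClosed k] [Finite τ] [J.IsPrime] (hJ : IsHomog J) {f : pts J → W k}
    (hf : IsMorphism f) {d : ℕ} (hd : 1 ≤ d) (hl : LiftHyp f d)
    {m0 : ℕ} {G0 : Co → MvPolynomial τ k} (hG0 : IsRep f m0 G0) (hG00 : G0 (some (0, 0)) ∉ J) :
    Function.Injective (aeval (R := k) (uK J G0)).toRingHom := by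
  have : Infinite k := inferInstance
  rw [injective_iff_map_eq_zero]
  intro F hF
  apply MvPolynomial.funext
  intro x0
  rw [map_zero]
  obtain ⟨y, hy⟩ := exists_lift hJ hf hl x0 0
  have h1 := relAlg_transfer (liftHom y hy.2.1) (uK J G0) _ (rel_u hJ hG0 hG00 hy) 0 0
    (relAlg (liftHom y hy.2.1)).zero_mem (Polynomial.C F) (by
      rw [Polynomial.map_C, Polynomial.eval_C]; exact hF)
  rw [Polynomial.map_C, Polynomial.eval_C, aeval_algebraMap_comp, RingHom.comp_apply] at h1
  have h2 : aeval (arc x0 (rho k d) 0) F = 0 :=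
    IsFractionRing.injective (Polynomial k) (FractionRing (Polynomial k)) (by
      rw [map_zero]; exact h1)
  rw [← eval_arc_zero hd x0 0 F, h2, Polynomial.eval_zero]

end Pool.Agent.Work.MP_ab22a4_ag
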