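import Mathlib
import Pool.Agent.Work.MP_ab22a4_ag.Bir

namespace Pool.Agent.Work.MP_ab22a4_ag

open MvPolynomial

variable {k : Type*} [Field k] {τ : Type*} {J : Ideal (MvPolynomial τ k)}

/-- coordinates nonvanishing on the source do not vanish along lifts of general arcs -/
lemma coord_ne_zero [IsAlgClosed k] [Finite τ] [J.IsPrime] (hJ : IsHomog J) {f : pts J → W k}
    {d : ℕ} (hd : 1 ≤ d)
    {m0 : ℕ} {G0 : Co → MvPolynomial τ k} (hG0 : IsRep f m0 G0) (hG00 : G0 (some (0, 0)) ∉ J)
    (b : τ) (hb : X b ∉ J)
    (halg : ∀ l : τ, ∃ R : Polynomial (MvPolynomial (Fin 3) k), R ≠ 0 ∧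
      (R.map (aeval (R := k) (uK J G0)).toRingHom).eval (ratio J (X l) (X b)) = 0) :
    ∃ p : MvPolynomial (Fin 3) k, p ≠ 0 ∧ ∀ x0 c0 y, IsLift f d x0 c0 y → eval x0 p ≠ 0 →
      y b ≠ 0 := by
  classical
  have := Fintype.ofFinite τ
  choose R hR0 hR using halg
  refine ⟨∏ l : τ, (R l).leadingCoeff, ?_, ?_⟩
  · rw [Finset.prod_ne_zero_iff]
    intro l _
    exact Polynomial.leadingCoeff_ne_zero.2 (hR0 l)
  intro x0 c0 y hy hp hyb
  obtain ⟨l, hl⟩ := hy.1
  have hlJ : (X l : MvPolynomial τ k) ∉ J := not_mem_of_lift hy.2.1 (by rw [aeval_X]; exact hl)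
  have hrel : (ratio J (X b) (X l), (0 : FractionRing (Polynomial k))) ∈
      relAlg (liftHom y hy.2.1) := by
    refine ⟨Ideal.Quotient.mk J (X b), Ideal.Quotient.mk J (X l), ?_, ?_, ?_⟩
    · rw [liftHom_mk, aeval_X]; exact hl
    · simp only
      rw [ratio_mul _ hlJ]
    · simp only
      rw [liftHom_mk, liftHom_mk, aeval_X, aeval_X, hyb, map_zero, zero_mul]
  have hinv : ratio J (X b) (X l) = (ratio J (X l) (X b))⁻¹ := by
    rw [ratio, ratio, inv_div]
  have hne : ratio J (X l) (X b) ≠ 0 := by
    rw [ratio]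
    exact div_ne_zero (mk_ne_zero_of hlJ) (mk_ne_zero_of hb)
  let _ : Invertible (ratio J (X l) (X b)) := invertibleOfNonzero hne
  have h1 := relAlg_transfer (liftHom y hy.2.1) (uK J G0) _ (rel_u hJ hG0 hG00 hy)
    (ratio J (X b) (X l)) 0 hrel (R l).reverse (by
      rw [Polynomial.eval_map, hinv]
      have h2 := (Polynomial.eval₂_reverse_eq_zero_iff (aeval (R := k) (uK J G0)).toRingHom
        (ratio J (X l) (X b)) (R l)).2 (by rw [← Polynomial.eval_map]; exact hR l)
      rw [invOf_eq_inv] at h2
      exact h2)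
  rw [← Polynomial.coeff_zero_eq_eval_zero, Polynomial.coeff_map, Polynomial.coeff_zero_reverse,
    aeval_algebraMap_comp, RingHom.comp_apply] at h1
  have h2 : aeval (arc x0 (rho k d) c0) (R l).leadingCoeff = 0 :=
    IsFractionRing.injective (Polynomial k) (FractionRing (Polynomial k)) (by
      rw [map_zero]; exact h1)
  have h3 : eval x0 (R l).leadingCoeff = 0 := by
    rw [← eval_arc_zero hd x0 c0, h2, Polynomial.eval_zero]
  apply hp
  rw [map_prod]
  exact Finset.prod_eq_zero (Finset.mem_univ l) h3

/-- every ratio of coordinates is a rational function of the pullbacks of the affine coordinates -/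
theorem ratio_mem [IsAlgClosed k] [CharZero k] [Finite τ] [J.IsPrime] (hJ : IsHomog J)
    {f : pts J → W k} (hf : IsMorphism f) {d : ℕ} (hd : 1 ≤ d) (hl : LiftHyp f d)
    {m0 : ℕ} {G0 : Co → MvPolynomial τ k} (hG0 : IsRep f m0 G0) (hG00 : G0 (some (0, 0)) ∉ J)
    (b : τ) (hb : X b ∉ J)
    (halg : ∀ l : τ, ∃ R : Polynomial (MvPolynomial (Fin 3) k), R ≠ 0 ∧
      (R.map (aeval (R := k) (uK J G0)).toRingHom).eval (ratio J (X l) (X b)) = 0) (a : τ) :
    ratio J (X a) (X b) ∈ IntermediateField.adjoin k (Set.range (uK J G0)) := by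
  have hinj := u_injective hJ hf hd hl hG0 hG00
  obtain ⟨p, hp0, hp⟩ := coord_ne_zero hJ (d := d) hd hG0 hG00 b hb halg
  obtain ⟨α, r, hα, hr⟩ := root_criterion (aeval (R := k) (uK J G0)).toRingHom hinj
    (ratio J (X a) (X b)) (halg a) (rho k d) (rho_zero hd) p hp0 (by
      intro x0 c0 hx0
      obtain ⟨y, hy⟩ := exists_lift hJ hf hl x0 c0
      have hyb := hp x0 c0 y hy hx0
      refine ⟨algebraMap _ _ (y a) / algebraMap _ _ (y b), fun P hP => ?_⟩
      have hyb' : algebraMap (Polynomial k) (FractionRing (Polynomial k)) (y b) ≠ 0 := by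
        intro h0
        exact hyb (IsFractionRing.injective (Polynomial k) (FractionRing (Polynomial k)) (by
          rw [h0, map_zero]))
      have hrel : (ratio J (X a) (X b), algebraMap (Polynomial k) (FractionRing (Polynomial k))
          (y a) / algebraMap _ _ (y b)) ∈ relAlg (liftHom y hy.2.1) := by
        refine ⟨Ideal.Quotient.mk J (X a), Ideal.Quotient.mk J (X b), ?_, ?_, ?_⟩
        · rw [liftHom_mk, aeval_X]; exact hyb
        · simp only
          rw [ratio_mul _ hb]
        · simp only
          rw [liftHom_mk, liftHom_mk, aeval_X, aeval_X, div_mul_cancel₀ _ hyb']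
      have h1 := relAlg_transfer (liftHom y hy.2.1) (uK J G0) _ (rel_u hJ hG0 hG00 hy) _ _ hrel P hP
      rw [aeval_algebraMap_comp] at h1
      exact h1)
  rw [IntermediateField.mem_adjoin_range_iff]
  refine ⟨r, α, ?_⟩
  have hα' : aeval (R := k) (uK J G0) α ≠ 0 := by
    intro h0
    apply hα
    apply hinj
    rw [map_zero]
    exact h0
  rw [eq_div_iff hα', mul_comm]
  exact hr

lemma homog_aeval_smul {K : Type*} [Field K] [Algebra k K] {F : MvPolynomial τ k} {n : ℕ}
    (hF : F.IsHomogeneous n) (l : K) (z : τ → K) :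
    aeval (fun i => l * z i) F = l ^ n * aeval z F := by
  have h := homog_eval_smul (hF.map (algebraMap k K)) l z
  rw [MvPolynomial.eval_map, MvPolynomial.eval_map] at h
  exact h

/-- if all ratios of coordinates are in a subfield then so is the function field -/
lemma funField_le [J.IsPrime] (E : IntermediateField k (FractionRing (MvPolynomial τ k ⧸ J)))
    (b : τ) (hb : X b ∉ J) (h : ∀ a, ratio J (X a) (X b) ∈ E) : funField J ≤ E := by
  rw [funField, IntermediateField.adjoin_le_iff]
  rintro _ ⟨m, F, G, hF, hG, rfl⟩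
  set q := algebraMap (MvPolynomial τ k ⧸ J) (FractionRing (MvPolynomial τ k ⧸ J)) with hq
  set xb := q (Ideal.Quotient.mk J (X b)) with hxb
  have hxb0 : xb ≠ 0 := mk_ne_zero_of hb
  have key : ∀ F : MvPolynomial τ k, F.IsHomogeneous m →
      q (Ideal.Quotient.mk J F) = xb ^ m * aeval (fun a => ratio J (X a) (X b)) F := by
    intro F hF
    rw [← homog_aeval_smul hF]
    have e1 : (fun i => xb * ratio J (X i) (X b)) = fun i => q (Ideal.Quotient.mk J (X i)) := by
      funext i
      rw [mul_comm, hxb, ratio_mul _ hb]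
    rw [e1]
    have : (aeval (R := k) (fun i => q (Ideal.Quotient.mk J (X i)))).toRingHom =
        q.comp (Ideal.Quotient.mk J) := by
      apply MvPolynomial.ringHom_ext
      · intro a
        simp only [RingHom.comp_apply, AlgHom.toRingHom_eq_coe, RingHom.coe_coe]
        rw [← MvPolynomial.algebraMap_eq, AlgHom.commutes]
        rfl
      · intro x
        simp
    exact (RingHom.congr_fun this F).symm
  have hmem : ∀ F : MvPolynomial τ k, aeval (fun a => ratio J (X a) (X b)) F ∈ E := by
    intro F
    have : aeval (fun a => ratio J (X a) (X b)) F ∈ E.toSubalgebra := by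
      let g : τ → E.toSubalgebra := fun a => ⟨ratio J (X a) (X b), h a⟩
      have e0 : (E.toSubalgebra.val).comp (aeval (R := k) g) =
          aeval (R := k) (fun a => ratio J (X a) (X b)) := by
        apply MvPolynomial.algHom_ext
        intro a
        rw [AlgHom.comp_apply, aeval_X, aeval_X]
        rfl
      have e : aeval (fun a => ratio J (X a) (X b)) F = E.toSubalgebra.val (aeval g F) := by
        rw [← e0]; rfl
      rw [e]
      exact (aeval g F).2
    exact this
  have : ratio J F G = aeval (fun a => ratio J (X a) (X b)) F /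
      aeval (fun a => ratio J (X a) (X b)) G := by
    rw [ratio, ← hq, key F hF, key G hG, mul_div_mul_left _ _ (pow_ne_zero _ hxb0)]
  rw [SetLike.mem_coe, this]
  exact E.div_mem (hmem F) (hmem G)

/-- the pullback field is generated by the pullbacks of the affine coordinates -/
lemma pullField_le [IsAlgClosed k] [Finite τ] [J.IsPrime] (hJ : IsHomog J) {f : pts J → W k}
    {m0 : ℕ} {G0 : Co → MvPolynomial τ k} (hG0 : IsRep f m0 G0) (hG00 : G0 (some (0, 0)) ∉ J)
    (hne : ∃ v : τ → k, v ≠ 0 ∧ ∀ F ∈ J, eval v F = 0) :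
    pullField f ≤ IntermediateField.adjoin k (Set.range (uK J G0)) := by
  rw [pullField, IntermediateField.adjoin_le_iff]
  rintro _ ⟨m, G, hG, i, j, rfl⟩
  set E := IntermediateField.adjoin k (Set.range (uK J G0)) with hE
  have huE : ∀ i, uK J G0 i ∈ E := fun i => IntermediateField.subset_adjoin _ _ ⟨i, rfl⟩
  by_cases h0 : G (some (0, 0)) ∈ J
  · have hz : ∀ i, G i ∈ J := by
      intro i
      have h1 := rep_compat hJ hG0 hG hne (some (0, 0)) i
      have h2 : G0 (some (0, 0)) * G i ∈ J := by
        have h3 : G0 i * G (some (0, 0)) ∈ J := J.mul_mem_left _ h0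
        have := J.add_mem h1 h3
        rwa [sub_add_cancel] at this
      rcases (Ideal.IsPrime.mem_or_mem inferInstance h2) with h | h
      · exact absurd h hG00
      · exact h
    have : ratio J (G i) (G j) = 0 := by
      rw [ratio, Ideal.Quotient.eq_zero_iff_mem.2 (hz i), map_zero, zero_div]
    rw [SetLike.mem_coe, this]
    exact E.zero_mem
  · have hu : ∀ i, ratio J (G (ix i)) (G (some (0, 0))) ∈ E := by
      intro i
      have : uK J G0 i = ratio J (G (ix i)) (G (some (0, 0))) :=
        ratio_eq hG00 h0 (rep_compat hJ hG0 hG hne _ _)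
      rw [← this]
      exact huE i
    have h0j : ∀ j : Fin 3, ratio J (G (some (0, j))) (G (some (0, 0))) ∈ E := by
      intro j
      fin_cases j
      · have : ratio J (G (some (0, 0))) (G (some (0, 0))) = 1 := div_self (mk_ne_zero_of h0)
        simp only [Fin.zero_eta, Fin.isValue]
        rw [this]
        exact E.one_mem
      · exact hu 0
      · exact hu 1
    have hij : ∀ i, ratio J (G i) (G (some (0, 0))) ∈ E := by
      intro i
      rcases i with _ | ⟨i, j⟩
      · exact hu 2
      · have h1 := rep_rank hJ hG hne i j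
        have h2 : ratio J (G (some (i, j))) (G (some (0, 0))) =
            ratio J (G (some (0, i))) (G (some (0, 0))) *
              ratio J (G (some (0, j))) (G (some (0, 0))) := by
          have hc := mk_ne_zero_of h0
          have h3 : algebraMap (MvPolynomial τ k ⧸ J) (FractionRing (MvPolynomial τ k ⧸ J))
              (Ideal.Quotient.mk J (G (some (0, 0)))) * algebraMap (MvPolynomial τ k ⧸ J) _
              (Ideal.Quotient.mk J (G (some (i, j)))) =
              algebraMap (MvPolynomial τ k ⧸ J) _ (Ideal.Quotient.mk J (G (some (0, i)))) *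
              algebraMap (MvPolynomial τ k ⧸ J) _ (Ideal.Quotient.mk J (G (some (0, j)))) := by
            rw [← map_mul, ← map_mul, ← map_mul, ← map_mul]
            congr 1
            rw [← sub_eq_zero, ← map_sub, Ideal.Quotient.eq_zero_iff_mem]
            exact h1
          rw [ratio, ratio, ratio]
          field_simp
          linear_combination h3
        rw [h2]
        exact E.mul_mem (h0j i) (h0j j)
    by_cases hj : G j ∈ J
    · have : ratio J (G i) (G j) = 0 := by
        rw [ratio, Ideal.Quotient.eq_zero_iff_mem.2 hj, map_zero, div_zero]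
      rw [SetLike.mem_coe, this]
      exact E.zero_mem
    · have : ratio J (G i) (G j) = ratio J (G i) (G (some (0, 0))) /
          ratio J (G j) (G (some (0, 0))) := by
        have hc := mk_ne_zero_of h0
        have hc' := mk_ne_zero_of hj
        rw [ratio, ratio, ratio]
        field_simp
      rw [SetLike.mem_coe, this]
      exact E.div_mem (hij i) (hij j)

lemma le_pullField [J.IsPrime] {f : pts J → W k}
    {m0 : ℕ} {G0 : Co → MvPolynomial τ k} (hG0 : IsRep f m0 G0) :
    IntermediateField.adjoin k (Set.range (uK J G0)) ≤ pullField f := by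
  rw [IntermediateField.adjoin_le_iff]
  rintro _ ⟨i, rfl⟩
  exact IntermediateField.subset_adjoin _ _ ⟨m0, G0, hG0, _, _, rfl⟩

end Pool.Agent.Work.MP_ab22a4_ag
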