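import Mathlib
import Pool.Agent.Work.MP_ab22a4_ag.BirTwo

namespace Pool.Agent.Work.MP_ab22a4_ag

open MvPolynomial

variable {k : Type*} [Field k] {τ : Type*} {J : Ideal (MvPolynomial τ k)}

lemma emb_eq_smul (x : Fin 3 → k) (y : k) (hx : x 0 ≠ 0) :
    emb x y = (x 0) ^ 2 • coPoly (![x 1 / x 0, x 2 / x 0, y / (x 0) ^ 2] : Fin 3 → k) := by
  funext i
  rcases i with _ | ⟨i, j⟩
  · simp [emb, coPoly]
    field_simp
  · rw [Pi.smul_apply, smul_eq_mul]
    fin_cases i <;> fin_cases j <;> simp [emb, coPoly] <;> field_simp

/-- density of the range of a morphism to which all arcs lift -/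
theorem dense_of_lift [IsAlgClosed k] (hJ : IsHomog J) {f : pts J → W k} (hf : IsMorphism f)
    {d : ℕ} (hd : 1 ≤ d) (hl : LiftHyp f d) : DenseRange f := by
  have : Infinite k := inferInstance
  obtain ⟨Z', hZ', hZ⟩ := isClosed_induced_iff.1 (isClosed_closure (s := Set.range f))
  rw [isClosed_iff_cone] at hZ'
  obtain ⟨S, hS⟩ := hZ'
  have hrange : ∀ y : pts J, (f y).1 ∈ Z' := by
    intro y
    have : f y ∈ closure (Set.range f) := subset_closure ⟨y, rfl⟩
    rw [← hZ] at this
    exact this
  -- the chart
  have step1 : ∀ F ∈ S, ∀ (x : Fin 3 → k) (y : k), x 0 ≠ 0 → eval (emb x y) F = 0 := by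
    intro F hF x y hx
    rw [emb_eq_smul x y hx]
    set x0 : Fin 3 → k := ![x 1 / x 0, x 2 / x 0, y / (x 0) ^ 2] with hx0
    obtain ⟨y', ⟨l, hyl⟩, hyJ, m, G, hG, hG0, hGi⟩ := exists_lift hJ hf hl x0 0
    set γ := arc x0 (rho k d) 0 with hγ
    have hH : aeval (fun i => Polynomial.C ((x 0) ^ 2) * coPoly γ i) F = 0 := by
      have h1 : aeval (fun i => Polynomial.C ((x 0) ^ 2) * coPoly γ i) F *
          (y' l * aeval y' (G (some (0, 0)))) = 0 := by
        apply Polynomial.funext
        intro t
        rw [Polynomial.eval_zero, Polynomial.eval_mul, Polynomial.eval_mul]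
        by_cases ht : (y' l).eval t = 0
        · rw [ht]; ring
        by_cases ht2 : (aeval y' (G (some (0, 0)))).eval t = 0
        · rw [ht2]; ring
        have hw0 : (fun l => (y' l).eval t) ≠ 0 := fun h => ht (congrFun h l)
        have hwJ : ∀ F ∈ J, eval (fun l => (y' l).eval t) F = 0 := by
          intro F hF
          rw [← eval_aeval_poly, hyJ F hF, Polynomial.eval_zero]
        have hm := pts_of_cone hJ _ hw0 hwJ
        have hGv : (fun i => eval (fun l => (y' l).eval t) (G i)) =
            (aeval y' (G (some (0, 0)))).eval t • (fun i => (coPoly γ i).eval t) := by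
          funext i
          rw [← eval_aeval_poly, hGi i, Polynomial.eval_mul]
          rfl
        have hq00 : (coPoly γ (some (0, 0))).eval t = 1 := by simp [coPoly]
        have hq : (fun i => (coPoly γ i).eval t) ≠ 0 := by
          intro h
          have := congrFun h (some (0, 0))
          rw [Pi.zero_apply, hq00] at this
          exact one_ne_zero this
        have hGne : (fun i => eval (fun l => (y' l).eval t) (G i)) ≠ 0 := by
          rw [hGv]
          exact smul_ne_zero ht2 hq
        have h2 := hrange ⟨_, hm⟩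
        rw [rep_apply hG _ hw0 hm hGne] at h2
        have hs : (x 0) ^ 2 • (fun i => (coPoly γ i).eval t) ≠ 0 :=
          smul_ne_zero (pow_ne_zero _ hx) hq
        have h3 : Projectivization.mk k _ hGne =
            Projectivization.mk k ((x 0) ^ 2 • (fun i => (coPoly γ i).eval t)) hs := by
          apply mk_eq_of_cross
          intro i j
          have e1 : eval (fun l => (y' l).eval t) (G i) =
              (aeval y' (G (some (0, 0)))).eval t * (coPoly γ i).eval t := congrFun hGv i
          have e2 : eval (fun l => (y' l).eval t) (G j) =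
              (aeval y' (G (some (0, 0)))).eval t * (coPoly γ j).eval t := congrFun hGv j
          rw [e1, e2, Pi.smul_apply, Pi.smul_apply, smul_eq_mul, smul_eq_mul]
          ring
        rw [h3] at h2
        have h4 := (hS _ hs).1 h2 F hF
        rw [eval_aeval_poly]
        have e : (fun l => (Polynomial.C ((x 0) ^ 2) * coPoly γ l).eval t) =
            (x 0) ^ 2 • (fun i => (coPoly γ i).eval t) := by
          funext i
          simp
        rw [e, h4, zero_mul]
      rcases mul_eq_zero.1 h1 with h2 | h2
      · exact h2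
      · exact absurd h2 (mul_ne_zero hyl hG0)
    have h5 := congrArg (Polynomial.eval 0) hH
    rw [Polynomial.eval_zero, eval_aeval_poly] at h5
    rw [← h5]
    congr 1
    congr 1
    funext i
    have hγ0 : ∀ i, (γ i).eval 0 = x0 i := by
      intro i
      simp [hγ, arc, rho_zero hd]
    rw [Pi.smul_apply, smul_eq_mul, Polynomial.eval_mul, Polynomial.eval_C]
    congr 1
    rcases i with _ | ⟨i, j⟩
    · simp only [coPoly]
      rw [hγ0]
    · simp only [coPoly, Polynomial.eval_mul]
      have h6 : ∀ i : Fin 3, ((![1, γ 0, γ 1] : Fin 3 → Polynomial k) i).eval 0 =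
          (![1, x0 0, x0 1] : Fin 3 → k) i := by
        intro i
        fin_cases i
        · simp
        · exact hγ0 0
        · exact hγ0 1
      rw [h6, h6]
  have step2 : ∀ F ∈ S, ∀ (x : Fin 3 → k) (y : k), eval (emb x y) F = 0 := by
    intro F hF x y
    let g : Co → MvPolynomial (Option (Fin 3)) k := fun i => match i with
      | none => X none
      | some (i, j) => X (some i) * X (some j)
    have hg : ∀ v : Option (Fin 3) → k, eval v (bind₁ g F) =
        eval (emb (fun i => v (some i)) (v none)) F := by
      intro v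
      have : (eval v).comp (bind₁ g).toRingHom = eval (emb (fun i => v (some i)) (v none)) := by
        apply MvPolynomial.ringHom_ext
        · intro a; simp
        · intro i
          rcases i with _ | ⟨i, j⟩
          · simp [g, emb]
          · simp [g, emb]
      exact RingHom.congr_fun this F
    have h0 : bind₁ g F * X (some 0) = 0 := by
      apply MvPolynomial.funext
      intro v
      rw [map_mul, hg, eval_X, map_zero]
      by_cases hv : v (some 0) = 0
      · rw [hv, mul_zero]
      · rw [step1 F hF _ _ hv, zero_mul]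
    have h1 : bind₁ g F = 0 := by
      rcases mul_eq_zero.1 h0 with h | h
      · exact h
      · exact absurd h (MvPolynomial.X_ne_zero _)
    have h2 := hg (fun i => match i with | none => y | some i => x i)
    rw [h1, map_zero] at h2
    exact h2.symm
  intro P
  rw [← hZ]
  change P.1 ∈ Z'
  obtain ⟨x, y, hxy⟩ := P.2
  rw [← P.1.mk_rep, hS]
  intro F hF
  rw [hxy]
  exact step2 F hF x y

/-- the key statement: a morphism to which all arcs lift is birational if generically finite -/
theorem birational_of_lift [IsAlgClosed k] [CharZero k] [Finite τ] [J.IsPrime] (hJ : IsHomog J)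
    {f : pts J → W k} (hf : IsMorphism f) (hgf : GenFinite f) {d : ℕ} (hd : 1 ≤ d)
    (hl : LiftHyp f d) : Birational f := by
  have : Infinite k := inferInstance
  refine ⟨dense_of_lift hJ hf hd hl, ?_⟩
  obtain ⟨y, hy, hyJ, m0, G0, hG0, hG00, hGi⟩ := exists_lift hJ hf hl 0 0
  obtain ⟨t, ht0, htJ⟩ := exists_cone_point y hy hyJ
  have hne : ∃ v : τ → k, v ≠ 0 ∧ ∀ F ∈ J, eval v F = 0 := ⟨_, ht0, htJ⟩
  have hG00J : G0 (some (0, 0)) ∉ J := not_mem_of_lift hyJ hG00
  obtain ⟨b, hb⟩ := hy
  have hbJ : (X b : MvPolynomial τ k) ∉ J := not_mem_of_lift hyJ (by rw [aeval_X]; exact hb)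
  have halg : ∀ l : τ, ∃ R : Polynomial (MvPolynomial (Fin 3) k), R ≠ 0 ∧
      (R.map (aeval (R := k) (uK J G0)).toRingHom).eval (ratio J (X l) (X b)) = 0 := by
    intro l
    apply exists_poly_of_isAlgebraic (uK J G0) (pullField f) (pullField_le hJ hG0 hG00J hne)
    apply hgf
    exact IntermediateField.subset_adjoin _ _
      ⟨1, X l, X b, isHomogeneous_X _ _, isHomogeneous_X _ _, rfl⟩
  have h1 : ∀ a, ratio J (X a) (X b) ∈ IntermediateField.adjoin k (Set.range (uK J G0)) :=
    ratio_mem hJ hf hd hl hG0 hG00J b hbJ halg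
  exact (funField_le _ b hbJ h1).trans (le_pullField hG0)

/-- components with `e ≥ 1` are not dominated -/
theorem not_dominated [IsAlgClosed k] [CharZero k] {d e : ℕ} (he : 1 ≤ e) (hde : 2 * e ≤ d) :
    ¬ Dominated (Wset k d e) := by
  rintro ⟨n, J, hJp, hJ, f, hf, hgf, hnb, d', N, hN⟩
  exact hnb (birational_of_lift hJ hf hgf (by omega) (liftHyp_of_dominated hJ f N he hde hN))

end Pool.Agent.Work.MP_ab22a4_ag
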